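import Mathlib

/-!
# Local v-numbers of binomial edge ideals of crown graphs

For every field `K`, every `n ≥ 4` and every cut set `T` of the crown graph `C_{n,n}` the local
v-number of the binomial edge ideal at the minimal prime `P_T(G)` is equal to `4`.

Idea of the lower bound: let `f` be homogeneous of degree at most three with `J : f = P_T`. Then `f`
is not in `P_T`, but `f` is in `P_{T'}` for each of the other minimal primes `P_{T'}`. Some
multihomogeneous component `g` of `f`, of a multidegree supported on at most three vertices, is not in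
`P_T`. For each set of at most three vertices outside `T` some other `P_{T'}` is at least as small as
`P_T` on the polynomials in these variables, except for `T` equal to one side of the graph and three
vertices on the other side; there `g` vanishes at all tuples of basis vectors by the pigeonhole
principle, hence is zero.
-/

namespace Pool.Agent.Results.MP_354fda_al.CrownV

open MvPolynomial

/-! ## Definitions -/

section defs

variable (K : Type) [Field K] {V : Type}

/-- The variable `x_v`. -/
noncomputable def xx (v : V) : MvPolynomial (V × Bool) K := X (v, false)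

/-- The variable `y_v`. -/
noncomputable def yy (v : V) : MvPolynomial (V × Bool) K := X (v, true)

/-- The binomial `x_u y_v - x_v y_u`. -/
noncomputable def br (u v : V) : MvPolynomial (V × Bool) K := xx K u * yy K v - xx K v * yy K u

/-- The binomial edge ideal `J_G`. -/
noncomputable def bei (G : SimpleGraph V) : Ideal (MvPolynomial (V × Bool) K) :=
  Ideal.span {p | ∃ u v, G.Adj u v ∧ p = br K u v}

variable {K}

/-- `u` and `v` are not in `T` and lie in the same connected component of `G` minus `T`. -/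
def SameComp (G : SimpleGraph V) (T : Set V) (u v : V) : Prop :=
  ∃ (hu : u ∈ Tᶜ) (hv : v ∈ Tᶜ), (G.induce Tᶜ).Reachable ⟨u, hu⟩ ⟨v, hv⟩

variable (K)

/-- The ideal `P_T(G)`, generated by `x_v, y_v` for `v ∈ T` and by the binomials of all pairs of
vertices in the same component of `G` minus `T`. -/
noncomputable def primeT (G : SimpleGraph V) (T : Set V) : Ideal (MvPolynomial (V × Bool) K) :=
  Ideal.span ({p | ∃ v ∈ T, p = xx K v ∨ p = yy K v} ∪
    {p | ∃ u v, SameComp G T u v ∧ p = br K u v})

/-- The number of connected components of `G` minus `T`. -/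
noncomputable def ncomp (G : SimpleGraph V) (T : Set V) : ℕ :=
  Nat.card (G.induce Tᶜ).ConnectedComponent

/-- The cut sets `C(G)`: `T = ∅` or `c(T \ {i}) < c(T)` for all `i ∈ T`. -/
def cutSets (G : SimpleGraph V) : Set (Set V) :=
  {T | T = ∅ ∨ ∀ i ∈ T, ncomp G (T \ {i}) < ncomp G T}

/-- The local v-number of `I` at `P` is `d`: `d` is the least degree of a homogeneous `f` with
`I : f = P`. -/
def IsLocalV {σ : Type} (I P : Ideal (MvPolynomial σ K)) (d : ℕ) : Prop :=
  IsLeast {e | ∃ f : MvPolynomial σ K, f.IsHomogeneous e ∧ ∀ g, g ∈ P ↔ g * f ∈ I} d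

/-- The crown graph `C_{n,n}`: the vertex `(b, i)` is the `i`-th vertex of the side `b`, and two
vertices are adjacent iff they are on different sides and have different indices. -/
def crown (n : ℕ) : SimpleGraph (Bool × Fin n) where
  Adj u v := u.1 ≠ v.1 ∧ u.2 ≠ v.2
  symm := ⟨fun _ _ h => ⟨h.1.symm, h.2.symm⟩⟩
  loopless := ⟨fun _ h => h.1 rfl⟩

end defs

/-! ## Parametrizations -/

section param

variable {K : Type} [Field K] {V : Type}

/-- the parametrized prime: `T` is sent to zero, the classes are the fibers of `ℓ` -/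
noncomputable def th (K : Type) [Field K] (T : Set V) (ℓ : V → V) :
    MvPolynomial (V × Bool) K →ₐ[K] MvPolynomial (V ⊕ (V × Bool)) K := by
  classical
  exact aeval fun p => if p.1 ∈ T then 0 else X (Sum.inl p.1) * X (Sum.inr (ℓ p.1, p.2))

lemma th_X_in {T : Set V} {ℓ : V → V} {v : V} (b : Bool) (h : v ∈ T) :
    th K T ℓ (X (v, b)) = 0 := by
  classical
  unfold th
  rw [aeval_X, if_pos h]

lemma th_X_out {T : Set V} {ℓ : V → V} {v : V} (b : Bool) (h : v ∉ T) :
    th K T ℓ (X (v, b)) = X (Sum.inl v) * X (Sum.inr (ℓ v, b)) := by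
  classical
  unfold th
  rw [aeval_X, if_neg h]

/-- the corresponding ideal -/
noncomputable def QQ (K : Type) [Field K] (T : Set V) (ℓ : V → V) :
    Ideal (MvPolynomial (V × Bool) K) :=
  Ideal.span ({p | ∃ v ∈ T, p = xx K v ∨ p = yy K v} ∪
    {p | ∃ u v, u ∉ T ∧ v ∉ T ∧ ℓ u = ℓ v ∧ p = br K u v})

/-- exponents of the image of a monomial -/
noncomputable def ph (ℓ : V → V) : ((V × Bool) →₀ ℕ) →+ ((V ⊕ (V × Bool)) →₀ ℕ) :=
  Finsupp.liftAddHom (fun p => multiplesHom _
    (Finsupp.single (Sum.inl p.1) 1 + Finsupp.single (Sum.inr (ℓ p.1, p.2)) 1))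

lemma th_monomial_in {T : Set V} {ℓ : V → V} {m : (V × Bool) →₀ ℕ} {p : V × Bool}
    (hp : p.1 ∈ T) (hm : m p ≠ 0) : th K T ℓ (monomial m 1) = 0 := by
  classical
  have h1 : m = (m - Finsupp.single p 1) + Finsupp.single p 1 := by
    rw [tsub_add_cancel_of_le]
    rw [Finsupp.single_le_iff]; omega
  have h2 : (monomial m (1 : K)) = monomial (m - Finsupp.single p 1) 1 * X p := by
    rw [X, monomial_mul, one_mul, ← h1]
  rw [h2, map_mul]
  have : th K T ℓ (X p) = 0 := th_X_in (v := p.1) p.2 hp
  rw [this, mul_zero]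

lemma th_monomial_out {T : Set V} {ℓ : V → V} {m : (V × Bool) →₀ ℕ}
    (hm : ∀ p, m p ≠ 0 → p.1 ∉ T) : th K T ℓ (monomial m 1) = monomial (ph ℓ m) 1 := by
  classical
  induction m using Finsupp.induction with
  | zero => rw [map_zero]; exact map_one _
  | single_add p c m hp hc ih =>
    have h1 : (monomial (Finsupp.single p c + m) (1 : K)) = X p ^ c * monomial m 1 := by
      rw [X_pow_eq_monomial, monomial_mul, one_mul]
    have hpT : p.1 ∉ T := by
      apply hm
      rw [Finsupp.add_apply, Finsupp.single_eq_same]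
      omega
    have h2 : th K T ℓ (X p) = X (Sum.inl p.1) * X (Sum.inr (ℓ p.1, p.2)) :=
      th_X_out (v := p.1) p.2 hpT
    rw [h1, map_mul, map_pow, h2, ih (fun q hq => hm q (by rw [Finsupp.add_apply]; omega)),
      map_add]
    have h3 : ph ℓ (Finsupp.single p c) =
        c • (Finsupp.single (Sum.inl p.1) 1 + Finsupp.single (Sum.inr (ℓ p.1, p.2)) 1) := by
      unfold ph
      simp
    rw [h3]
    have h4 : (X (Sum.inl p.1) * X (Sum.inr (ℓ p.1, p.2)) : MvPolynomial (V ⊕ (V × Bool)) K) =
        monomial (Finsupp.single (Sum.inl p.1) 1 + Finsupp.single (Sum.inr (ℓ p.1, p.2)) 1) 1 := by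
      rw [X, X, monomial_mul, one_mul]
    rw [h4, monomial_pow, monomial_mul, one_pow, one_mul]

lemma ph_inl [Finite V] (ℓ : V → V) (m : (V × Bool) →₀ ℕ) (v : V) :
    ph ℓ m (Sum.inl v) = m (v, false) + m (v, true) := by
  classical
  induction m using Finsupp.induction_linear with
  | zero => rw [map_zero]; rfl
  | add m m' h h' =>
    rw [map_add, Finsupp.add_apply, h, h', Finsupp.add_apply, Finsupp.add_apply]; ring
  | single p c =>
    unfold ph
    obtain ⟨w, b⟩ := p
    simp only [Finsupp.liftAddHom_apply_single, multiplesHom_apply, Finsupp.smul_apply,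
      Finsupp.add_apply, Finsupp.single_apply, Sum.inl.injEq, smul_eq_mul]
    by_cases h : w = v
    · subst h
      cases b <;> simp
    · simp [h]

lemma ph_inr [Fintype V] [DecidableEq V] (ℓ : V → V) (m : (V × Bool) →₀ ℕ) (w : V) (b : Bool) :
    ph ℓ m (Sum.inr (w, b)) = ∑ v, if ℓ v = w then m (v, b) else 0 := by
  classical
  induction m using Finsupp.induction_linear with
  | zero => rw [map_zero]; simp
  | add m m' h h' =>
    rw [map_add, Finsupp.add_apply, h, h', ← Finset.sum_add_distrib]
    apply Finset.sum_congr rfl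
    intro v _
    split_ifs <;> simp
  | single p c =>
    unfold ph
    obtain ⟨u, b'⟩ := p
    simp only [Finsupp.liftAddHom_apply_single, multiplesHom_apply, Finsupp.smul_apply,
      Finsupp.add_apply, Finsupp.single_apply, Sum.inr.injEq, smul_eq_mul, Prod.mk.injEq]
    rw [Finset.sum_eq_single u]
    · by_cases h : ℓ u = w
      · by_cases hb : b' = b
        · simp [h, hb]
        · simp [h, hb]
      · simp [h]
    · intro v _ hv
      simp [Ne.symm hv]
    · intro h; exact absurd (Finset.mem_univ _) h


/-- no variable of `T` occurs -/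
def NoT (T : Set V) (m : (V × Bool) →₀ ℕ) : Prop := ∀ p, m p ≠ 0 → p.1 ∉ T

lemma br_mem_QQ {T : Set V} {ℓ : V → V} {u v : V} (hu : u ∉ T) (hv : v ∉ T) (h : ℓ u = ℓ v) :
    br K u v ∈ QQ K T ℓ :=
  Ideal.subset_span (Or.inr ⟨u, v, hu, hv, h, rfl⟩)

lemma swap_mem [Fintype V] (T : Set V) (ℓ : V → V) : ∀ (N : ℕ) (m m' : (V × Bool) →₀ ℕ),
    ∑ v, (m (v, false) - m' (v, false)) ≤ N → NoT T m → ph ℓ m = ph ℓ m' →
      (monomial m 1 - monomial m' 1 : MvPolynomial (V × Bool) K) ∈ QQ K T ℓ := by
  classical
  intro N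
  induction N with
  | zero =>
    intro m m' hN hm hph
    have h1 : ∀ v, m (v, false) + m (v, true) = m' (v, false) + m' (v, true) := by
      intro v; rw [← ph_inl ℓ m v, ← ph_inl ℓ m' v, hph]
    have h2 : ∀ w, ∑ v, (if ℓ v = w then m (v, false) else 0) =
        ∑ v, (if ℓ v = w then m' (v, false) else 0) := by
      intro w; rw [← ph_inr ℓ m w false, ← ph_inr ℓ m' w false, hph]
    have hle : ∀ v, m (v, false) ≤ m' (v, false) := by
      intro v
      have h3 : m (v, false) - m' (v, false) ≤ ∑ v, (m (v, false) - m' (v, false)) :=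
        Finset.single_le_sum (f := fun v => m (v, false) - m' (v, false))
          (fun _ _ => Nat.zero_le _) (Finset.mem_univ v)
      omega
    have heq : ∀ v, m (v, false) = m' (v, false) := by
      intro v
      have h3 := (Finset.sum_eq_sum_iff_of_le (s := Finset.univ)
        (f := fun u => if ℓ u = ℓ v then m (u, false) else 0)
        (g := fun u => if ℓ u = ℓ v then m' (u, false) else 0) (by
          intro u _
          show (if ℓ u = ℓ v then m (u, false) else 0) ≤ (if ℓ u = ℓ v then m' (u, false) else 0)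
          split_ifs
          · exact hle u
          · exact le_refl _)).mp (h2 (ℓ v)) v (Finset.mem_univ v)
      simpa using h3
    have hmm : m = m' := by
      ext ⟨v, b⟩
      cases b
      · exact heq v
      · have := h1 v
        have := heq v
        omega
    rw [hmm, sub_self]
    exact Ideal.zero_mem _
  | succ N ih =>
    intro m m' hN hm hph
    have h1 : ∀ v, m (v, false) + m (v, true) = m' (v, false) + m' (v, true) := by
      intro v; rw [← ph_inl ℓ m v, ← ph_inl ℓ m' v, hph]
    have h2 : ∀ w, ∑ v, (if ℓ v = w then m (v, false) else 0) =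
        ∑ v, (if ℓ v = w then m' (v, false) else 0) := by
      intro w; rw [← ph_inr ℓ m w false, ← ph_inr ℓ m' w false, hph]
    by_cases hle : ∀ v, m (v, false) ≤ m' (v, false)
    · apply ih m m' _ hm hph
      rw [Finset.sum_eq_zero]
      · exact Nat.zero_le _
      · intro v _
        have := hle v
        omega
    · push Not at hle
      obtain ⟨v, hv⟩ := hle
      obtain ⟨u, huv, hu⟩ : ∃ u, ℓ u = ℓ v ∧ m (u, false) < m' (u, false) := by
        by_contra hcon
        push Not at hcon
        have h3 : ∑ u, (if ℓ u = ℓ v then m' (u, false) else 0) <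
            ∑ u, (if ℓ u = ℓ v then m (u, false) else 0) := by
          apply Finset.sum_lt_sum
          · intro u _
            split_ifs with h
            · exact hcon u h
            · exact le_refl _
          · refine ⟨v, Finset.mem_univ _, ?_⟩
            rw [if_pos rfl, if_pos rfl]; exact hv
        have := h2 (ℓ v)
        omega
      have hne : u ≠ v := by
        rintro rfl
        omega
      have hut : 1 ≤ m (u, true) := by
        have := h1 u
        omega
      have hvf : 1 ≤ m (v, false) := by omega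
      have hvT : v ∉ T := hm (v, false) (by omega)
      have huT : u ∉ T := hm (u, true) (by omega)
      set r : (V × Bool) →₀ ℕ := m - Finsupp.single (v, false) 1 - Finsupp.single (u, true) 1
        with hr
      have hmr : m = r + (Finsupp.single (v, false) 1 + Finsupp.single (u, true) 1) := by
        ext ⟨w, b⟩
        rw [hr]
        simp only [Finsupp.add_apply, Finsupp.tsub_apply, Finsupp.single_apply, Prod.mk.injEq]
        cases b
        · by_cases h : v = w
          · subst h; simp; omega
          · simp [h]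
        · by_cases h : u = w
          · subst h; simp; omega
          · simp [h]
      set m'' : (V × Bool) →₀ ℕ := r + (Finsupp.single (u, false) 1 + Finsupp.single (v, true) 1)
        with hm''
      have hph'' : ph ℓ m'' = ph ℓ m := by
        rw [hmr, hm'', map_add, map_add]
        rw [map_add, map_add]
        unfold ph
        simp only [Finsupp.liftAddHom_apply_single, multiplesHom_apply, one_smul, huv]
        abel
      have hval : ∀ w b, m'' (w, b) + (if (v, false) = (w, b) then 1 else 0) +
          (if (u, true) = (w, b) then 1 else 0) =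
          m (w, b) + (if (u, false) = (w, b) then 1 else 0) +
          (if (v, true) = (w, b) then 1 else 0) := by
        intro w b
        rw [hmr, hm'']
        simp only [Finsupp.add_apply, Finsupp.single_apply]
        ring
      have hNoT : NoT T m'' := by
        rintro ⟨w, b⟩ hw
        have h3 := hval w b
        by_cases h4 : (u, false) = (w, b)
        · rw [← congrArg Prod.fst h4]; exact huT
        · by_cases h5 : (v, true) = (w, b)
          · rw [← congrArg Prod.fst h5]; exact hvT
          · rw [if_neg h4, if_neg h5] at h3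
            apply hm (w, b)
            omega
      have hsum : ∑ w, (m'' (w, false) - m' (w, false)) <
          ∑ w, (m (w, false) - m' (w, false)) := by
        apply Finset.sum_lt_sum
        · intro w _
          have h3 := hval w false
          by_cases h4 : u = w
          · subst h4
            have : ¬ (v, false) = (u, false) := fun h => hne (congrArg Prod.fst h).symm
            simp [Ne.symm hne] at h3
            omega
          · simp [h4] at h3
            omega
        · refine ⟨v, Finset.mem_univ _, ?_⟩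
          have h3 := hval v false
          simp [hne] at h3
          omega
      have h3 := ih m'' m' (by omega) hNoT (hph''.trans hph)
      have h4 : (monomial m 1 - monomial m'' 1 : MvPolynomial (V × Bool) K) =
          monomial r 1 * br K v u := by
        unfold br xx yy
        rw [X, X, X, X, monomial_mul, monomial_mul, mul_sub, monomial_mul, monomial_mul, one_mul,
          one_mul, hmr, hm'']
        
      have h5 : (monomial m 1 - monomial m' 1 : MvPolynomial (V × Bool) K) =
          (monomial m 1 - monomial m'' 1) + (monomial m'' 1 - monomial m' 1) := by ring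
      rw [h5]
      apply Ideal.add_mem _ _ h3
      rw [h4]
      exact Ideal.mul_mem_left _ _ (br_mem_QQ hvT huT huv.symm)

/-- a representative monomial -/
noncomputable def repM (T : Set V) (ℓ : V → V) (e : (V ⊕ (V × Bool)) →₀ ℕ) :
    (V × Bool) →₀ ℕ := by
  classical
  exact if h : ∃ m, NoT T m ∧ ph ℓ m = e then h.choose else 0

/-- linear section -/
noncomputable def secM (K : Type) [Field K] (T : Set V) (ℓ : V → V) :
    MvPolynomial (V ⊕ (V × Bool)) K →ₗ[K] MvPolynomial (V × Bool) K :=
  (basisMonomials _ K).constr K (fun e => (monomial (repM T ℓ e) (1 : K)))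

lemma secM_monomial (T : Set V) (ℓ : V → V) (e : (V ⊕ (V × Bool)) →₀ ℕ) :
    secM K T ℓ (monomial e 1) = monomial (repM T ℓ e) 1 := by
  have := (basisMonomials (V ⊕ (V × Bool)) K).constr_basis K
    (fun e => (monomial (repM T ℓ e) (1 : K) : MvPolynomial (V × Bool) K)) e
  rw [coe_basisMonomials] at this
  exact this

/-- The kernel of the parametrization. -/
lemma ker_le [Fintype V] (T : Set V) (ℓ : V → V) (f : MvPolynomial (V × Bool) K)
    (hf : th K T ℓ f = 0) : f ∈ QQ K T ℓ := by
  classical
  have key : ∀ g : MvPolynomial (V × Bool) K, g - secM K T ℓ (th K T ℓ g) ∈ QQ K T ℓ := by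
    intro g
    induction g using MvPolynomial.induction_on' with
    | monomial m c =>
      have h1 : (monomial m c : MvPolynomial (V × Bool) K) = c • monomial m 1 := by
        rw [smul_monomial, smul_eq_mul, mul_one]
      rw [h1, map_smul, map_smul, ← smul_sub, smul_eq_C_mul]
      apply Ideal.mul_mem_left
      by_cases hm : NoT T m
      · rw [th_monomial_out hm, secM_monomial]
        have hex : ∃ m', NoT T m' ∧ ph ℓ m' = ph ℓ m := ⟨m, hm, rfl⟩
        have h2 : repM T ℓ (ph ℓ m) = hex.choose := by
          unfold repM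
          rw [dif_pos hex]
        rw [h2]
        exact swap_mem T ℓ _ m _ (le_refl _) hm hex.choose_spec.2.symm
      · unfold NoT at hm
        push Not at hm
        obtain ⟨p, hp, hpT⟩ := hm
        rw [th_monomial_in hpT hp, map_zero, sub_zero]
        have h3 : m = (m - Finsupp.single p 1) + Finsupp.single p 1 := by
          rw [tsub_add_cancel_of_le]
          rw [Finsupp.single_le_iff]; omega
        have h4 : (monomial m (1 : K)) = monomial (m - Finsupp.single p 1) 1 * X p := by
          rw [X, monomial_mul, one_mul, ← h3]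
        rw [h4]
        apply Ideal.mul_mem_left
        apply Ideal.subset_span
        left
        refine ⟨p.1, hpT, ?_⟩
        obtain ⟨v, b⟩ := p
        cases b
        · left; rfl
        · right; rfl
    | add g h hg hh =>
      have h1 : (g + h) - secM K T ℓ (th K T ℓ (g + h)) =
        (g - secM K T ℓ (th K T ℓ g)) + (h - secM K T ℓ (th K T ℓ h)) := by
        rw [map_add, map_add]; ring
      rw [h1]
      exact Ideal.add_mem _ hg hh
  have := key f
  rw [hf, map_zero, sub_zero] at this
  exact this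


/-! ### The binomial edge ideal and the parametrizations -/

lemma th_br (T : Set V) (ℓ : V → V) {u v : V} (hu : u ∉ T) (hv : v ∉ T) :
    th K T ℓ (br K u v) = X (Sum.inl u) * X (Sum.inl v) *
      (X (Sum.inr (ℓ u, false)) * X (Sum.inr (ℓ v, true)) -
        X (Sum.inr (ℓ v, false)) * X (Sum.inr (ℓ u, true))) := by
  unfold br xx yy
  rw [map_sub, map_mul, map_mul, th_X_out _ hu, th_X_out _ hu, th_X_out _ hv, th_X_out _ hv]
  ring

lemma bei_ker {G : SimpleGraph V} {T : Set V} {ℓ : V → V}
    (hG : ∀ u v, G.Adj u v → u ∉ T → v ∉ T → ℓ u = ℓ v) {f : MvPolynomial (V × Bool) K}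
    (hf : f ∈ bei K G) : th K T ℓ f = 0 := by
  have : bei K G ≤ RingHom.ker (th K T ℓ) := by
    unfold bei
    rw [Ideal.span_le]
    rintro _ ⟨u, v, huv, rfl⟩
    show th K T ℓ (br K u v) = 0
    by_cases hu : u ∈ T
    · unfold br xx yy
      rw [map_sub, map_mul, map_mul, th_X_in _ hu, th_X_in _ hu]
      ring
    · by_cases hv : v ∈ T
      · unfold br xx yy
        rw [map_sub, map_mul, map_mul, th_X_in _ hv, th_X_in _ hv]
        ring
      · rw [th_br T ℓ hu hv, hG u v huv hu hv]
        ring
  exact this hf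

lemma th_X_ne {T : Set V} {ℓ : V → V} {v : V} (b : Bool) (h : v ∉ T) :
    th K T ℓ (X (v, b)) ≠ 0 := by
  rw [th_X_out b h]
  exact mul_ne_zero (X_ne_zero _) (X_ne_zero _)

lemma th_br_ne {T : Set V} {ℓ : V → V} {u v : V} (hu : u ∉ T) (hv : v ∉ T) (h : ℓ u ≠ ℓ v) :
    th K T ℓ (br K u v) ≠ 0 := by
  classical
  rw [th_br T ℓ hu hv]
  refine mul_ne_zero (mul_ne_zero (X_ne_zero _) (X_ne_zero _)) ?_
  intro h0
  have h1 := congrArg (eval (fun p : V ⊕ (V × Bool) =>
    if p = Sum.inr (ℓ u, false) ∨ p = Sum.inr (ℓ v, true) then (1 : K) else 0)) h0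
  simp only [map_sub, map_mul, eval_X, map_zero] at h1
  simp [h, Ne.symm h] at h1

/-- the ideal generated by an annihilated family -/
lemma th_eq_zero_of_ann {G : SimpleGraph V} {T' : Set V} {ℓ' : V → V}
    (hG : ∀ u v, G.Adj u v → u ∉ T' → v ∉ T' → ℓ' u = ℓ' v) {f g : MvPolynomial (V × Bool) K}
    (hg : th K T' ℓ' g ≠ 0) (hgf : g * f ∈ bei K G) : th K T' ℓ' f = 0 := by
  have h1 := bei_ker hG hgf
  rw [map_mul] at h1
  exact (mul_eq_zero.mp h1).resolve_left hg

/-! ### Connected components -/

lemma SameComp.refl {G : SimpleGraph V} {T : Set V} {u : V} (hu : u ∉ T) : SameComp G T u u :=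
  ⟨hu, hu, SimpleGraph.Reachable.refl _⟩

lemma SameComp.symm {G : SimpleGraph V} {T : Set V} {u v : V} (h : SameComp G T u v) :
    SameComp G T v u := by
  obtain ⟨hu, hv, h⟩ := h
  exact ⟨hv, hu, h.symm⟩

lemma SameComp.trans {G : SimpleGraph V} {T : Set V} {u v w : V} (h : SameComp G T u v)
    (h' : SameComp G T v w) : SameComp G T u w := by
  obtain ⟨hu, hv, h⟩ := h
  obtain ⟨hv', hw, h'⟩ := h'
  exact ⟨hu, hw, h.trans h'⟩

lemma sameComp_of_adj {G : SimpleGraph V} {T : Set V} {u v : V} (hu : u ∉ T) (hv : v ∉ T)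
    (h : G.Adj u v) : SameComp G T u v := by
  refine ⟨hu, hv, SimpleGraph.Adj.reachable ?_⟩
  exact h

lemma label_of_sameComp {G : SimpleGraph V} {T : Set V} {α : Type} {ℓ : V → α}
    (hG : ∀ u v, G.Adj u v → u ∉ T → v ∉ T → ℓ u = ℓ v) {u v : V} (h : SameComp G T u v) :
    ℓ u = ℓ v := by
  obtain ⟨hu, hv, h⟩ := h
  obtain ⟨p⟩ := h
  have key : ∀ (a b : ↥(Tᶜ)) (_ : (G.induce Tᶜ).Walk a b), ℓ a.1 = ℓ b.1 := by
    intro a b q
    induction q with
    | nil => rfl
    | @cons x y z hadj _ ih => exact (hG x.1 y.1 hadj x.2 y.2).trans ih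
  exact key _ _ p

lemma primeT_eq {G : SimpleGraph V} {T : Set V} {ℓ : V → V}
    (hG : ∀ u v, G.Adj u v → u ∉ T → v ∉ T → ℓ u = ℓ v)
    (hc : ∀ u v, u ∉ T → v ∉ T → ℓ u = ℓ v → SameComp G T u v) :
    primeT K G T = QQ K T ℓ := by
  unfold primeT QQ
  congr 1
  congr 1
  ext p
  constructor
  · rintro ⟨u, v, h, rfl⟩
    exact ⟨u, v, h.1, h.2.1, label_of_sameComp hG h, rfl⟩
  · rintro ⟨u, v, hu, hv, h, rfl⟩
    exact ⟨u, v, hc u v hu hv h, rfl⟩

/-- the witness criterion -/
lemma witness [Fintype V] {G : SimpleGraph V} {T : Set V} {ℓ : V → V}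
    (hG : ∀ u v, G.Adj u v → u ∉ T → v ∉ T → ℓ u = ℓ v)
    (hc : ∀ u v, u ∉ T → v ∉ T → ℓ u = ℓ v → SameComp G T u v)
    {h : MvPolynomial (V × Bool) K} (hne : th K T ℓ h ≠ 0)
    (h1 : ∀ v ∈ T, ∀ b, X (v, b) * h ∈ bei K G)
    (h2 : ∀ u v, u ∉ T → v ∉ T → ℓ u = ℓ v → br K u v * h ∈ bei K G) :
    ∀ g, g ∈ primeT K G T ↔ g * h ∈ bei K G := by
  intro g
  constructor
  · intro hg
    unfold primeT at hg
    refine Submodule.span_induction (p := fun x _ => x * h ∈ bei K G) ?_ ?_ ?_ ?_ hg
    · rintro x (⟨v, hv, rfl | rfl⟩ | ⟨u, v, huv, rfl⟩)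
      · exact h1 v hv false
      · exact h1 v hv true
      · exact h2 u v huv.1 huv.2.1 (label_of_sameComp hG huv)
    · rw [zero_mul]; exact Ideal.zero_mem _
    · intro x y _ _ hx hy
      rw [add_mul]; exact Ideal.add_mem _ hx hy
    · intro c x _ hx
      rw [smul_eq_mul, mul_assoc]; exact Ideal.mul_mem_left _ _ hx
  · intro hg
    rw [primeT_eq hG hc]
    apply ker_le
    have h3 := bei_ker hG hg
    rw [map_mul] at h3
    exact (mul_eq_zero.mp h3).resolve_right hne

/-! ### The multigrading -/

/-- the multidegree of a monomial -/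
noncomputable def md : ((V × Bool) →₀ ℕ) →+ (V →₀ ℕ) := Finsupp.mapDomain.addMonoidHom Prod.fst

lemma md_apply (m : (V × Bool) →₀ ℕ) (v : V) : md m v = m (v, false) + m (v, true) := by
  classical
  induction m using Finsupp.induction_linear with
  | zero => rw [map_zero]; rfl
  | add m m' h h' =>
    rw [map_add, Finsupp.add_apply, h, h', Finsupp.add_apply, Finsupp.add_apply]; ring
  | single p c =>
    obtain ⟨w, b⟩ := p
    have : md (Finsupp.single (w, b) c) = Finsupp.single w c := Finsupp.mapDomain_single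
    rw [this]
    by_cases h : w = v
    · subst h
      cases b <;> simp
    · simp [h]

open Classical in
/-- multihomogeneous component -/
noncomputable def cmp (K : Type) [Field K] (α : V →₀ ℕ) :
    MvPolynomial (V × Bool) K →ₗ[K] MvPolynomial (V × Bool) K :=
  (basisMonomials _ K).constr K (fun m => if md m = α then (monomial m (1 : K)) else 0)

open Classical in
lemma cmp_monomial (α : V →₀ ℕ) (m : (V × Bool) →₀ ℕ) :
    cmp K α (monomial m 1) = if md m = α then monomial m 1 else 0 := by
  have := (basisMonomials (V × Bool) K).constr_basis K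
    (fun m => if md m = α then (monomial m (1 : K) : MvPolynomial (V × Bool) K) else 0) m
  rw [coe_basisMonomials] at this
  exact this

/-- the `a`-degree of a monomial of the parameter ring -/
noncomputable def ad (e : (V ⊕ (V × Bool)) →₀ ℕ) : V →₀ ℕ :=
  Finsupp.comapDomain Sum.inl e Sum.inl_injective.injOn

open Classical in
/-- component in the parameter ring -/
noncomputable def cmpD (K : Type) [Field K] (α : V →₀ ℕ) :
    MvPolynomial (V ⊕ (V × Bool)) K →ₗ[K] MvPolynomial (V ⊕ (V × Bool)) K :=
  (basisMonomials _ K).constr K (fun e => if ad e = α then (monomial e (1 : K)) else 0)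

open Classical in
lemma cmpD_monomial (α : V →₀ ℕ) (e : (V ⊕ (V × Bool)) →₀ ℕ) :
    cmpD K α (monomial e 1) = if ad e = α then monomial e 1 else 0 := by
  have := (basisMonomials (V ⊕ (V × Bool)) K).constr_basis K
    (fun e => if ad e = α then (monomial e (1 : K) : MvPolynomial (V ⊕ (V × Bool)) K) else 0) e
  rw [coe_basisMonomials] at this
  exact this

lemma ad_ph [Finite V] (ℓ : V → V) (m : (V × Bool) →₀ ℕ) : ad (ph ℓ m) = md m := by
  ext v
  unfold ad
  rw [Finsupp.comapDomain_apply, ph_inl, md_apply]

lemma th_cmp [Finite V] (T : Set V) (ℓ : V → V) (α : V →₀ ℕ) (f : MvPolynomial (V × Bool) K) :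
    th K T ℓ (cmp K α f) = cmpD K α (th K T ℓ f) := by
  classical
  induction f using MvPolynomial.induction_on' with
  | monomial m c =>
    have h1 : (monomial m c : MvPolynomial (V × Bool) K) = c • monomial m 1 := by
      rw [smul_monomial, smul_eq_mul, mul_one]
    rw [h1, map_smul, map_smul, map_smul, map_smul]
    congr 1
    rw [cmp_monomial]
    by_cases hm : NoT T m
    · rw [th_monomial_out hm, cmpD_monomial, ad_ph]
      split_ifs
      · exact th_monomial_out hm
      · exact map_zero _
    · unfold NoT at hm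
      push Not at hm
      obtain ⟨p, hp, hpT⟩ := hm
      rw [th_monomial_in hpT hp, map_zero]
      split_ifs
      · exact th_monomial_in hpT hp
      · exact map_zero _
  | add g h hg hh =>
    rw [map_add, map_add, hg, hh, map_add, map_add]

lemma coeff_cmpD (α : V →₀ ℕ) (f : MvPolynomial (V ⊕ (V × Bool)) K)
    (e : (V ⊕ (V × Bool)) →₀ ℕ) (he : ad e = α) : coeff e (cmpD K α f) = coeff e f := by
  classical
  induction f using MvPolynomial.induction_on' with
  | monomial m c =>
    have h1 : (monomial m c : MvPolynomial (V ⊕ (V × Bool)) K) = c • monomial m 1 := by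
      rw [smul_monomial, smul_eq_mul, mul_one]
    rw [h1, map_smul, coeff_smul, coeff_smul, cmpD_monomial]
    congr 1
    by_cases hm : m = e
    · rw [hm, if_pos he]
    · split_ifs
      · rfl
      · rw [coeff_monomial, if_neg hm]; rfl
  | add g h hg hh =>
    rw [map_add, coeff_add, coeff_add, hg, hh]

lemma exists_cmp [Finite V] {T : Set V} {ℓ : V → V} {f : MvPolynomial (V × Bool) K}
    (hf : th K T ℓ f ≠ 0) : ∃ α : V →₀ ℕ, th K T ℓ (cmp K α f) ≠ 0 := by
  obtain ⟨e, he⟩ := MvPolynomial.ne_zero_iff.mp hf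
  refine ⟨ad e, ?_⟩
  rw [th_cmp]
  intro h
  have := coeff_cmpD (K := K) (ad e) (th K T ℓ f) e rfl
  rw [h, coeff_zero] at this
  exact he this.symm

lemma mem_supp_cmp (α : V →₀ ℕ) (f : MvPolynomial (V × Bool) K) (m : (V × Bool) →₀ ℕ)
    (hm : m ∈ (cmp K α f).support) : m ∈ f.support ∧ md m = α := by
  classical
  have h1 : cmp K α f = ∑ w ∈ f.support, if md w = α then monomial w (coeff w f) else 0 := by
    conv_lhs => rw [f.as_sum]
    rw [map_sum]
    apply Finset.sum_congr rfl
    intro w _
    have h3 : (monomial w (coeff w f) : MvPolynomial (V × Bool) K) = coeff w f • monomial w 1 := by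
      rw [smul_monomial, smul_eq_mul, mul_one]
    conv_lhs => rw [h3]
    rw [map_smul, cmp_monomial]
    split_ifs
    · rw [← h3]
    · rw [smul_zero]
  rw [h1] at hm
  have h2 := support_sum hm
  rw [Finset.mem_biUnion] at h2
  obtain ⟨w, hw, hmw⟩ := h2
  split_ifs at hmw with h
  · have := support_monomial_subset hmw
    rw [Finset.mem_singleton] at this
    rw [this]; exact ⟨hw, h⟩
  · simp at hmw


/-! ### Specialization -/

lemma hom_congr {A : Type} [CommRing A] [Algebra K A] (F F' : MvPolynomial (V × Bool) K →ₐ[K] A)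
    {g : MvPolynomial (V × Bool) K} {α : V →₀ ℕ} (hg : ∀ m ∈ g.support, md m = α)
    (h : ∀ v b, α v ≠ 0 → F (X (v, b)) = F' (X (v, b))) : F g = F' g := by
  classical
  rw [g.as_sum, map_sum, map_sum]
  apply Finset.sum_congr rfl
  intro m hm
  have h1 : ∀ F : MvPolynomial (V × Bool) K →ₐ[K] A, F (monomial m (coeff m g)) =
      algebraMap K A (coeff m g) * m.prod (fun p c => F (X p) ^ c) := by
    intro F
    rw [monomial_eq, map_mul]
    congr 1
    · exact F.commutes _
    · rw [Finsupp.prod, Finsupp.prod, map_prod]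
      apply Finset.prod_congr rfl
      intro p _
      rw [map_pow]
  rw [h1, h1]
  congr 1
  apply Finset.prod_congr rfl
  rintro ⟨v, b⟩ hp
  have h2 : α v ≠ 0 := by
    rw [← hg m hm, md_apply]
    have h3 := Finsupp.mem_support_iff.mp hp
    cases b <;> omega
  show F (X (v, b)) ^ m (v, b) = F' (X (v, b)) ^ m (v, b)
  rw [h v b h2]

/-- Refinement lemma. -/
lemma refine_lemma {T T' : Set V} {ℓ ℓ' : V → V} {g : MvPolynomial (V × Bool) K} {α : V →₀ ℕ}
    (hg : ∀ m ∈ g.support, md m = α) (hne : th K T ℓ g ≠ 0) (hz : th K T' ℓ' g = 0)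
    (h1 : ∀ v, α v ≠ 0 → v ∉ T')
    (h2 : ∀ u v, α u ≠ 0 → α v ≠ 0 → u ∉ T → v ∉ T → ℓ' u = ℓ' v → ℓ u = ℓ v) : False := by
  classical
  -- the support avoids T
  have hT : ∀ v, α v ≠ 0 → v ∉ T := by
    intro v hv hvT
    apply hne
    rw [g.as_sum, map_sum]
    apply Finset.sum_eq_zero
    intro m hm
    have h3 : m (v, false) ≠ 0 ∨ m (v, true) ≠ 0 := by
      have := md_apply m v
      rw [hg m hm] at this
      omega
    have h4 : (monomial m (coeff m g) : MvPolynomial (V × Bool) K) = coeff m g • monomial m 1 := by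
      rw [smul_monomial, smul_eq_mul, mul_one]
    rw [h4, map_smul]
    rcases h3 with h3 | h3
    · rw [th_monomial_in (p := (v, false)) hvT h3, smul_zero]
    · rw [th_monomial_in (p := (v, true)) hvT h3, smul_zero]
  let ψ : MvPolynomial (V ⊕ (V × Bool)) K →ₐ[K] MvPolynomial (V ⊕ (V × Bool)) K :=
    aeval (Sum.elim (fun v => X (Sum.inl v)) (fun p =>
      if h : ∃ v, α v ≠ 0 ∧ ℓ' v = p.1 then X (Sum.inr (ℓ h.choose, p.2)) else 0))
  apply hne
  have h3 : th K T ℓ g = (ψ.comp (th K T' ℓ')) g := by
    apply hom_congr _ _ hg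
    intro v b hv
    rw [th_X_out b (hT v hv), AlgHom.comp_apply, th_X_out b (h1 v hv), map_mul]
    have hex : ∃ w, α w ≠ 0 ∧ ℓ' w = ℓ' v := ⟨v, hv, rfl⟩
    have h4 : ψ (X (Sum.inl v)) = X (Sum.inl v) := by
      show aeval _ (X (Sum.inl v)) = _
      rw [aeval_X]; rfl
    have h5 : ψ (X (Sum.inr (ℓ' v, b))) = X (Sum.inr (ℓ hex.choose, b)) := by
      show aeval _ (X (Sum.inr (ℓ' v, b))) = _
      rw [aeval_X]
      exact dif_pos hex
    rw [h4, h5]
    have h6 := h2 hex.choose v hex.choose_spec.1 hv (hT _ hex.choose_spec.1) (hT v hv)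
      hex.choose_spec.2
    rw [h6]
  rw [h3, AlgHom.comp_apply, hz, map_zero]

/-- the evaluation at basis vectors -/
noncomputable def ev (K : Type) [Field K] (ε : V → Bool) : MvPolynomial (V × Bool) K →ₐ[K] K :=
  aeval (fun p => if p.2 = ε p.1 then 1 else 0)

lemma ev_zero {T' : Set V} {ℓ' : V → V} {g : MvPolynomial (V × Bool) K} {α : V →₀ ℕ}
    (hg : ∀ m ∈ g.support, md m = α) (hz : th K T' ℓ' g = 0)
    (h1 : ∀ v, α v ≠ 0 → v ∉ T') (ε : V → Bool)
    (h2 : ∀ u v, α u ≠ 0 → α v ≠ 0 → ℓ' u = ℓ' v → ε u = ε v) : ev K ε g = 0 := by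
  classical
  let ψ : MvPolynomial (V ⊕ (V × Bool)) K →ₐ[K] K :=
    aeval (Sum.elim (fun v => 1) (fun p =>
      if h : ∃ v, α v ≠ 0 ∧ ℓ' v = p.1 then (if p.2 = ε h.choose then 1 else 0) else 0))
  have h3 : ev K ε g = (ψ.comp (th K T' ℓ')) g := by
    apply hom_congr _ _ hg
    intro v b hv
    rw [AlgHom.comp_apply, th_X_out b (h1 v hv), map_mul]
    have hex : ∃ w, α w ≠ 0 ∧ ℓ' w = ℓ' v := ⟨v, hv, rfl⟩
    have h4 : ψ (X (Sum.inl v)) = 1 := by
      show aeval _ (X (Sum.inl v)) = _
      rw [aeval_X]; rfl
    have h5 : ψ (X (Sum.inr (ℓ' v, b))) = if b = ε hex.choose then 1 else 0 := by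
      show aeval _ (X (Sum.inr (ℓ' v, b))) = _
      rw [aeval_X]
      exact dif_pos hex
    rw [h4, h5, h2 hex.choose v hex.choose_spec.1 hv hex.choose_spec.2, one_mul]
    show aeval _ (X (v, b)) = _
    rw [aeval_X]
  rw [h3, AlgHom.comp_apply, hz, map_zero]

/-- coefficients as evaluations, in squarefree multidegrees -/
lemma coeff_eq_ev {g : MvPolynomial (V × Bool) K} {α : V →₀ ℕ}
    (hg : ∀ m ∈ g.support, md m = α) {m : (V × Bool) →₀ ℕ}
    (hm : m ∈ g.support) (ε : V → Bool) (hε : ∀ p : V × Bool, m p ≠ 0 → p.2 = ε p.1) :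
    ev K ε g = coeff m g := by
  classical
  conv_lhs => rw [g.as_sum]
  rw [map_sum, Finset.sum_eq_single m]
  · show aeval _ (monomial m (coeff m g)) = _
    rw [aeval_monomial]
    have : (m.prod fun p c => (if p.2 = ε p.1 then (1 : K) else 0) ^ c) = 1 := by
      apply Finset.prod_eq_one
      intro p hp
      show (if p.2 = ε p.1 then (1 : K) else 0) ^ (m p) = 1
      rw [if_pos (hε p (Finsupp.mem_support_iff.mp hp)), one_pow]
    rw [this, mul_one]
    rfl
  · intro m' hm' hne
    show aeval _ (monomial m' (coeff m' g)) = _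
    rw [aeval_monomial]
    have : ∃ p : V × Bool, m' p ≠ 0 ∧ p.2 ≠ ε p.1 := by
      by_contra hcon
      push Not at hcon
      apply hne
      ext ⟨v, b⟩
      have h1 := md_apply m v
      have h2 := md_apply m' v
      rw [hg m hm] at h1
      rw [hg m' hm'] at h2
      have h3 : ∀ b, b ≠ ε v → m (v, b) = 0 := fun b hb => by
        by_contra h; exact hb (hε (v, b) h)
      have h4 : ∀ b, b ≠ ε v → m' (v, b) = 0 := fun b hb => by
        by_contra h; exact hb (hcon (v, b) h)
      cases hv : ε v
      · have h5 := h3 true (by rw [hv]; simp)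
        have h6 := h4 true (by rw [hv]; simp)
        cases b <;> omega
      · have h5 := h3 false (by rw [hv]; simp)
        have h6 := h4 false (by rw [hv]; simp)
        cases b <;> omega
    obtain ⟨p, hp, hpε⟩ := this
    have : (m'.prod fun p c => (if p.2 = ε p.1 then (1 : K) else 0) ^ c) = 0 := by
      apply Finset.prod_eq_zero (Finsupp.mem_support_iff.mpr hp)
      show (if p.2 = ε p.1 then (1 : K) else 0) ^ (m' p) = 0
      rw [if_neg hpε]
      exact zero_pow hp
    rw [this, mul_zero]
  · intro h; exact absurd hm h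

end param

/-! ## The crown graph -/

section crown

variable {K : Type} [Field K] {n : ℕ}

lemma adj_iff (u v : Bool × Fin n) : (crown n).Adj u v ↔ u.1 ≠ v.1 ∧ u.2 ≠ v.2 := Iff.rfl

/-- the sets `T` -/
def T1 (b : Bool) : Set (Bool × Fin n) := {v | v.1 = b}
/-- one side without one vertex -/
def T2 (b : Bool) (i : Fin n) : Set (Bool × Fin n) := {v | v.1 = b ∧ v.2 ≠ i}
/-- everything outside two indices -/
def T3 (i l : Fin n) : Set (Bool × Fin n) := {v | v.2 ≠ i ∧ v.2 ≠ l}

/-- labels -/
def l1 : Bool × Fin n → Bool × Fin n := id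
/-- labels for `T2` -/
def l2 (b : Bool) (i : Fin n) (v : Bool × Fin n) : Bool × Fin n :=
  if v = (!b, i) then v else (b, i)
/-- labels for `T3` -/
def l3 (i : Fin n) (v : Bool × Fin n) : Bool × Fin n := (if v.2 = i then v.1 else !v.1, i)

lemma hG0 (w : Bool × Fin n) : ∀ u v : Bool × Fin n, (crown n).Adj u v → u ∉ (∅ : Set _) →
    v ∉ (∅ : Set _) → (fun _ => w : Bool × Fin n → Bool × Fin n) u = (fun _ => w) v :=
  fun _ _ _ _ _ => rfl

lemma hG1 (b : Bool) : ∀ u v : Bool × Fin n, (crown n).Adj u v → u ∉ T1 b → v ∉ T1 b →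
    l1 u = l1 v := by
  rintro ⟨c, i⟩ ⟨d, j⟩ h hu hv
  exfalso
  rw [adj_iff] at h
  have h1 : c ≠ b := hu
  have h2 : d ≠ b := hv
  have h3 : c ≠ d := h.1
  revert h1 h2 h3
  cases b <;> cases c <;> cases d <;> simp

lemma hG2 (b : Bool) (i : Fin n) : ∀ u v : Bool × Fin n, (crown n).Adj u v → u ∉ T2 b i →
    v ∉ T2 b i → l2 b i u = l2 b i v := by
  rintro ⟨c, k⟩ ⟨d, j⟩ h hu hv
  rw [adj_iff] at h
  obtain ⟨h1, h2⟩ := h
  have hu' : c = b → k = i := fun hc => by
    by_contra hk; exact hu ⟨hc, hk⟩
  have hv' : d = b → j = i := fun hc => by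
    by_contra hk; exact hv ⟨hc, hk⟩
  unfold l2
  have h1' : c ≠ d := h1
  have h2' : k ≠ j := h2
  have hne1 : (c, k) ≠ (!b, i) := by
    intro h
    rw [Prod.mk.injEq] at h
    obtain ⟨rfl, rfl⟩ := h
    have : d = b := by
      revert h1'; cases b <;> cases d <;> simp
    exact h2' (hv' this).symm
  have hne2 : (d, j) ≠ (!b, i) := by
    intro h
    rw [Prod.mk.injEq] at h
    obtain ⟨rfl, rfl⟩ := h
    have : c = b := by
      revert h1'; cases b <;> cases c <;> simp
    exact h2' (hu' this)
  rw [if_neg hne1, if_neg hne2]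

lemma hG3 (i l : Fin n) : ∀ u v : Bool × Fin n, (crown n).Adj u v → u ∉ T3 i l →
    v ∉ T3 i l → l3 i u = l3 i v := by
  rintro ⟨c, k⟩ ⟨d, j⟩ h hu hv
  rw [adj_iff] at h
  have h1 : c ≠ d := h.1
  have h2 : k ≠ j := h.2
  have hu' : k = i ∨ k = l := by
    by_contra hk; push Not at hk; exact hu hk
  have hv' : j = i ∨ j = l := by
    by_contra hk; push Not at hk; exact hv hk
  unfold l3
  rw [Prod.mk.injEq]
  refine ⟨?_, rfl⟩
  show (if k = i then c else !c) = (if j = i then d else !d)
  by_cases hk : k = i
  · have hj : j ≠ i := fun hj => h2 (hk.trans hj.symm)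
    rw [if_pos hk, if_neg hj]
    revert h1; cases c <;> cases d <;> simp
  · have hj : j = i := by
      rcases hv' with hj | hj
      · exact hj
      · rcases hu' with hk' | hk'
        · exact absurd hk' hk
        · exact absurd (hk'.trans hj.symm) h2
    rw [if_neg hk, if_pos hj]
    revert h1; cases c <;> cases d <;> simp

lemma hc1 (b : Bool) : ∀ u v : Bool × Fin n, u ∉ T1 b → v ∉ T1 b → l1 u = l1 v →
    SameComp (crown n) (T1 b) u v := by
  intro u v hu _ h
  have : u = v := h
  subst this
  exact SameComp.refl hu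

lemma hc2 (b : Bool) (i : Fin n) : ∀ u v : Bool × Fin n, u ∉ T2 b i → v ∉ T2 b i →
    l2 b i u = l2 b i v → SameComp (crown n) (T2 b i) u v := by
  have hbi : (b, i) ∉ T2 b i := fun h => h.2 rfl
  have key : ∀ u : Bool × Fin n, u ∉ T2 b i → u ≠ (!b, i) →
      SameComp (crown n) (T2 b i) u (b, i) := by
    rintro ⟨c, k⟩ hu hne
    by_cases hcb : c = b
    · have hk : k = i := by
        by_contra hk; exact hu ⟨hcb, hk⟩
      subst hcb; subst hk
      exact SameComp.refl hu
    · apply sameComp_of_adj hu hbi
      rw [adj_iff]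
      refine ⟨hcb, ?_⟩
      intro hk
      apply hne
      have hk' : k = i := hk
      rw [hk']
      have : c = !b := by revert hcb; cases b <;> cases c <;> simp
      rw [this]
  intro u v hu hv h
  unfold l2 at h
  by_cases h1 : u = (!b, i)
  · by_cases h2 : v = (!b, i)
    · rw [h1, h2]; rw [h1] at hu; exact SameComp.refl hu
    · rw [if_pos h1, if_neg h2, h1, Prod.mk.injEq] at h
      exfalso
      have := h.1
      revert this; cases b <;> simp
  · by_cases h2 : v = (!b, i)
    · rw [if_neg h1, if_pos h2, h2, Prod.mk.injEq] at h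
      exfalso
      have := h.1
      revert this; cases b <;> simp
    · exact (key u hu h1).trans (key v hv h2).symm

lemma hc3 (i l : Fin n) (hil : i ≠ l) : ∀ u v : Bool × Fin n, u ∉ T3 i l → v ∉ T3 i l →
    l3 i u = l3 i v → SameComp (crown n) (T3 i l) u v := by
  rintro ⟨c, k⟩ ⟨d, j⟩ hu hv h
  have hu' : k = i ∨ k = l := by
    by_contra hk; push Not at hk; exact hu hk
  have hv' : j = i ∨ j = l := by
    by_contra hk; push Not at hk; exact hv hk
  unfold l3 at h
  rw [Prod.mk.injEq] at h
  have h1 : (if k = i then c else !c) = (if j = i then d else !d) := h.1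
  rcases hu' with hk | hk
  · rcases hv' with hj | hj
    · rw [if_pos hk, if_pos hj] at h1
      subst hk; subst hj; subst h1
      exact SameComp.refl hu
    · rw [if_pos hk, if_neg (fun h => hil (h.symm.trans hj))] at h1
      apply sameComp_of_adj hu hv
      rw [adj_iff]
      constructor
      · show c ≠ d
        rw [h1]; cases d <;> simp
      · show k ≠ j
        rw [hk, hj]; exact hil
  · rcases hv' with hj | hj
    · rw [if_neg (fun h => hil (h.symm.trans hk)), if_pos hj] at h1
      apply sameComp_of_adj hu hv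
      rw [adj_iff]
      constructor
      · show c ≠ d
        rw [← h1]; cases c <;> simp
      · show k ≠ j
        rw [hk, hj]; exact hil.symm
    · rw [if_neg (fun h => hil (h.symm.trans hk)), if_neg (fun h => hil (h.symm.trans hj))] at h1
      have h2 : c = d := by revert h1; cases c <;> cases d <;> simp
      have h3 : k = j := hk.trans hj.symm
      subst h2; subst h3
      exact SameComp.refl hu

/-- there is an index different from three given ones -/
lemma exists_ne3 (hn : 4 ≤ n) (a b c : Fin n) : ∃ d : Fin n, d ≠ a ∧ d ≠ b ∧ d ≠ c := by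
  classical
  by_contra hcon
  push Not at hcon
  have h1 : (Finset.univ : Finset (Fin n)) ⊆ {a, b, c} := by
    intro d _
    rw [Finset.mem_insert, Finset.mem_insert, Finset.mem_singleton]
    by_contra h
    push Not at h
    exact h.2.2 (hcon d h.1 h.2.1)
  have h2 := Finset.card_le_card h1
  rw [Finset.card_univ, Fintype.card_fin] at h2
  have h3 := Finset.card_le_three (a := a) (b := b) (c := c)
  omega

lemma hc0 (hn : 4 ≤ n) (w : Bool × Fin n) : ∀ u v : Bool × Fin n, u ∉ (∅ : Set _) →
    v ∉ (∅ : Set _) → (fun _ => w : Bool × Fin n → Bool × Fin n) u = (fun _ => w) v →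
    SameComp (crown n) ∅ u v := by
  have hadj : ∀ c i j, i ≠ j → SameComp (crown n) ∅ (c, i) (!c, j) := by
    intro c i j hij
    apply sameComp_of_adj (Set.notMem_empty _) (Set.notMem_empty _)
    rw [adj_iff]
    exact ⟨by cases c <;> simp, hij⟩
  have hsame : ∀ c i j, SameComp (crown n) ∅ (c, i) (c, j) := by
    intro c i j
    obtain ⟨k, hk1, hk2, -⟩ := exists_ne3 hn i j j
    exact (hadj c i k hk1.symm).trans (hadj c j k hk2.symm).symm
  rintro ⟨c, i⟩ ⟨d, j⟩ _ _ _
  by_cases hcd : c = d
  · subst hcd; exact hsame c i j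
  · have hd : d = !c := by revert hcd; cases c <;> cases d <;> simp
    subst hd
    obtain ⟨k, hk1, -, -⟩ := exists_ne3 hn i i i
    exact (hadj c i k hk1.symm).trans (hsame (!c) k j)

end crown

/-! ### Annihilation along paths -/

section path

variable {K : Type} [Field K] {V : Type} {G : SimpleGraph V}

lemma br_mem {u v : V} (h : G.Adj u v) : br K u v ∈ bei K G :=
  Ideal.subset_span ⟨u, v, h, rfl⟩

lemma br_self (u : V) : br K u u = 0 := by unfold br; ring

lemma step {u v w : V} {q : MvPolynomial (V × Bool) K} (h : G.Adj u w)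
    (hq : q * br K w v ∈ bei K G) (c : Bool) : q * X (w, c) * br K u v ∈ bei K G := by
  have h1 : q * X (w, c) * br K u v =
      X (u, c) * (q * br K w v) + (q * X (v, c)) * br K u w := by
    unfold br xx yy
    cases c <;> ring
  rw [h1]
  exact Ideal.add_mem _ (Ideal.mul_mem_left _ _ hq) (Ideal.mul_mem_left _ _ (br_mem h))

lemma path1 {u v w : V} (h1 : G.Adj u w) (h2 : G.Adj w v) (c : Bool) :
    X (w, c) * br K u v ∈ bei K G := by
  have := step (q := 1) h1 (by rw [one_mul]; exact br_mem (K := K) h2) c
  rwa [one_mul] at this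

lemma path2 {u v w w' : V} (h1 : G.Adj u w) (h2 : G.Adj w w') (h3 : G.Adj w' v) (c c' : Bool) :
    X (w', c') * X (w, c) * br K u v ∈ bei K G :=
  step h1 (path1 h2 h3 c') c

lemma path3 {u v w w' w'' : V} (h1 : G.Adj u w) (h2 : G.Adj w w') (h3 : G.Adj w' w'')
    (h4 : G.Adj w'' v) (c c' c'' : Bool) :
    X (w'', c'') * X (w', c') * X (w, c) * br K u v ∈ bei K G :=
  step h1 (path2 h2 h3 h4 c' c'') c

lemma four {a b c d u v : V} (hab : G.Adj a b) (hbc : G.Adj b c)
    (hda : G.Adj d a) (hu : G.Adj u a)
    (hv : G.Adj a v ∨ G.Adj b v ∨ G.Adj c v ∨ G.Adj d v) :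
    br K u v * (xx K a * xx K b * xx K c * xx K d) ∈ bei K G := by
  rcases hv with hv | hv | hv | hv
  · have h1 : br K u v * (xx K a * xx K b * xx K c * xx K d) =
        (xx K b * xx K c * xx K d) * (X (a, false) * br K u v) := by
      unfold xx; ring
    rw [h1]
    exact Ideal.mul_mem_left _ _ (path1 hu hv false)
  · have h1 : br K u v * (xx K a * xx K b * xx K c * xx K d) =
        (xx K c * xx K d) * (X (b, false) * X (a, false) * br K u v) := by
      unfold xx; ring
    rw [h1]
    exact Ideal.mul_mem_left _ _ (path2 hu hab hv false false)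
  · have h1 : br K u v * (xx K a * xx K b * xx K c * xx K d) =
        (xx K d) * (X (c, false) * X (b, false) * X (a, false) * br K u v) := by
      unfold xx; ring
    rw [h1]
    exact Ideal.mul_mem_left _ _ (path3 hu hab hbc hv false false false)
  · have h1 : br K u v * (xx K a * xx K b * xx K c * xx K d) =
        (xx K b * xx K c) * (X (d, false) * X (a, false) * br K u v) := by
      unfold xx; ring
    rw [h1]
    exact Ideal.mul_mem_left _ _ (path2 hu hda.symm hv false false)

lemma xx_hom (v : V) : (xx K v).IsHomogeneous 1 := isHomogeneous_X _ _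

lemma br_hom (u v : V) : (br K u v).IsHomogeneous 2 := by
  unfold br
  exact ((isHomogeneous_X K _).mul (isHomogeneous_X K _)).sub
    ((isHomogeneous_X K _).mul (isHomogeneous_X K _))

/-! ### Lower bound machinery -/

lemma th_ne_of_prop [Fintype V] {T : Set V} {ℓ : V → V}
    (hG : ∀ u v, G.Adj u v → u ∉ T → v ∉ T → ℓ u = ℓ v)
    (hc : ∀ u v, u ∉ T → v ∉ T → ℓ u = ℓ v → SameComp G T u v)
    {h : MvPolynomial (V × Bool) K} (hne : th K T ℓ h ≠ 0)
    (hw : ∀ g, g ∈ primeT K G T ↔ g * h ∈ bei K G)
    {f : MvPolynomial (V × Bool) K} (hf : ∀ g, g ∈ primeT K G T ↔ g * f ∈ bei K G) :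
    th K T ℓ f ≠ 0 := by
  intro h0
  have h1 : f ∈ primeT K G T := by
    rw [primeT_eq hG hc]
    exact ker_le T ℓ f h0
  have h2 : f * h ∈ bei K G := (hw f).mp h1
  have h3 : h ∈ primeT K G T := (hf h).mpr (by rw [mul_comm]; exact h2)
  have h4 := bei_ker hG ((hw h).mp h3)
  rw [map_mul] at h4
  exact hne (mul_self_eq_zero.mp h4)

lemma supp_of_ne {T : Set V} {ℓ : V → V} {g : MvPolynomial (V × Bool) K} {α : V →₀ ℕ}
    (hg : ∀ m ∈ g.support, md m = α) (hne : th K T ℓ g ≠ 0) : ∀ v, α v ≠ 0 → v ∉ T := by
  classical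
  intro v hv hvT
  apply hne
  rw [g.as_sum, map_sum]
  apply Finset.sum_eq_zero
  intro m hm
  have h3 : m (v, false) ≠ 0 ∨ m (v, true) ≠ 0 := by
    have := md_apply m v
    rw [hg m hm] at this
    omega
  have h4 : (monomial m (coeff m g) : MvPolynomial (V × Bool) K) = coeff m g • monomial m 1 := by
    rw [smul_monomial, smul_eq_mul, mul_one]
  rw [h4, map_smul]
  rcases h3 with h3 | h3
  · rw [th_monomial_in (p := (v, false)) hvT h3, smul_zero]
  · rw [th_monomial_in (p := (v, true)) hvT h3, smul_zero]

/-- the data extracted from an `f` of degree at most three -/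
lemma extract [Fintype V] [DecidableEq V] {T : Set V} {ℓ : V → V}
    (hG : ∀ u v, G.Adj u v → u ∉ T → v ∉ T → ℓ u = ℓ v)
    (hc : ∀ u v, u ∉ T → v ∉ T → ℓ u = ℓ v → SameComp G T u v)
    {h : MvPolynomial (V × Bool) K} (hne : th K T ℓ h ≠ 0)
    (hw : ∀ g, g ∈ primeT K G T ↔ g * h ∈ bei K G)
    {f : MvPolynomial (V × Bool) K} (hf : ∀ g, g ∈ primeT K G T ↔ g * f ∈ bei K G)
    {e : ℕ} (he : f.IsHomogeneous e) (he3 : e ≤ 3) :
    ∃ (α : V →₀ ℕ) (g : MvPolynomial (V × Bool) K), th K T ℓ g ≠ 0 ∧
      (∀ m ∈ g.support, md m = α) ∧ ∑ v, α v ≤ 3 ∧ (∀ v, α v ≠ 0 → v ∉ T) ∧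
      (∀ (T' : Set V) (ℓ' : V → V), (∀ u v, G.Adj u v → u ∉ T' → v ∉ T' → ℓ' u = ℓ' v) →
        (∃ q ∈ primeT K G T, th K T' ℓ' q ≠ 0) → th K T' ℓ' g = 0) := by
  have h1 := th_ne_of_prop hG hc hne hw hf
  obtain ⟨α, hα⟩ := exists_cmp h1
  have hg : ∀ m ∈ (cmp K α f).support, md m = α := fun m hm => (mem_supp_cmp α f m hm).2
  refine ⟨α, cmp K α f, hα, hg, ?_, supp_of_ne hg hα, ?_⟩
  · have h2 : cmp K α f ≠ 0 := by
      intro h; rw [h, map_zero] at hα; exact hα rfl
    obtain ⟨m, hm⟩ := MvPolynomial.support_nonempty.mpr h2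
    obtain ⟨hm1, hm2⟩ := mem_supp_cmp α f m hm
    have h3 := he (MvPolynomial.mem_support_iff.mp hm1)
    rw [Finsupp.weight_apply, Finsupp.sum_fintype _ _ (by simp), Fintype.sum_prod_type] at h3
    have h4 : ∑ v, α v = ∑ v : V, ∑ b : Bool, m (v, b) • (1 : (V × Bool) → ℕ) (v, b) := by
      apply Finset.sum_congr rfl
      intro v _
      rw [← hm2, md_apply]
      simp
      ring
    omega
  · rintro T' ℓ' hG' ⟨q, hq, hqne⟩
    have h2 := th_eq_zero_of_ann hG' hqne ((hf q).mp hq)
    rw [th_cmp, h2, map_zero]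

end path

/-! ### The witnesses for the crown graph -/

section witnesses

variable {K : Type} [Field K] {n : ℕ}

lemma bnot_ne (b : Bool) : (!b) ≠ b := by cases b <;> simp

lemma ne_bnot (b : Bool) : b ≠ !b := by cases b <;> simp

lemma eq_bnot {b c : Bool} (h : c ≠ b) : c = !b := by revert h; cases b <;> cases c <;> simp

lemma adj_mk0 {c d : Bool} {i j : Fin n} (h : c ≠ d) (h' : i ≠ j) :
    (crown n).Adj (c, i) (d, j) := ⟨h, h'⟩

lemma adj_mk {b : Bool} {i j : Fin n} (h : i ≠ j) : (crown n).Adj (b, i) (!b, j) :=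
  ⟨ne_bnot b, h⟩

lemma adj_mk' {b : Bool} {i j : Fin n} (h : i ≠ j) : (crown n).Adj (!b, i) (b, j) :=
  ⟨bnot_ne b, h⟩

/-- witness for `T = ∅` -/
lemma wit0 (hn : 4 ≤ n) (w : Bool × Fin n) : ∃ h : MvPolynomial ((Bool × Fin n) × Bool) K,
    h.IsHomogeneous 4 ∧ th K ∅ (fun _ => w) h ≠ 0 ∧
      ∀ g, g ∈ primeT K (crown n) ∅ ↔ g * h ∈ bei K (crown n) := by
  have i0 : Fin n := ⟨0, by omega⟩
  obtain ⟨i1, h10, -, -⟩ := exists_ne3 hn i0 i0 i0
  obtain ⟨i2, h20, h21, -⟩ := exists_ne3 hn i0 i1 i1
  obtain ⟨i3, h30, h31, h32⟩ := exists_ne3 hn i0 i1 i2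
  have hn0 : ∀ v : Bool × Fin n, v ∉ (∅ : Set (Bool × Fin n)) := fun v => Set.notMem_empty v
  have hne : th K ∅ (fun _ => w) (xx K (true, i0) * xx K (false, i1) * xx K (true, i2) *
      xx K (false, i3)) ≠ 0 := by
    rw [map_mul, map_mul, map_mul]
    exact mul_ne_zero (mul_ne_zero (mul_ne_zero (th_X_ne _ (hn0 _)) (th_X_ne _ (hn0 _)))
      (th_X_ne _ (hn0 _))) (th_X_ne _ (hn0 _))
  refine ⟨xx K (true, i0) * xx K (false, i1) * xx K (true, i2) * xx K (false, i3), ?_, hne, ?_⟩
  · exact (((xx_hom _).mul (xx_hom _)).mul (xx_hom _)).mul (xx_hom _)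
  · apply witness (hG0 w) (hc0 hn w) hne
    · intro v hv; exact absurd hv (hn0 v)
    · intro u v _ _ _
      have e01 : (crown n).Adj (true, i0) (false, i1) := ⟨by simp, h10.symm⟩
      have e12 : (crown n).Adj (false, i1) (true, i2) := ⟨by simp, h21.symm⟩
      have e23 : (crown n).Adj (true, i2) (false, i3) := ⟨by simp, h32.symm⟩
      have e30 : (crown n).Adj (false, i3) (true, i0) := ⟨by simp, h30⟩
      have hdom : ∀ v : Bool × Fin n, (crown n).Adj (true, i0) v ∨ (crown n).Adj (false, i1) v ∨
          (crown n).Adj (true, i2) v ∨ (crown n).Adj (false, i3) v := by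
        rintro ⟨c, j⟩
        cases c
        · by_cases h : i0 = j
          · right; right; left; exact ⟨by simp, fun h' => h20 (h'.trans h.symm)⟩
          · left; exact ⟨by simp, h⟩
        · by_cases h : i1 = j
          · right; right; right; exact ⟨by simp, fun h' => h31 (h'.trans h.symm)⟩
          · right; left; exact ⟨by simp, h⟩
      rcases hdom u with hu | hu | hu | hu
      · exact four e01 e12 e30 hu.symm (hdom v)
      · have h1 := four (K := K) (d := (true, i0)) e12 e23 e01 hu.symm (v := v) (by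
          rcases hdom v with h | h | h | h
          · right; right; right; exact h
          · left; exact h
          · right; left; exact h
          · right; right; left; exact h)
        have h2 : xx K (true, i0) * xx K (false, i1) * xx K (true, i2) * xx K (false, i3) =
          xx K (false, i1) * xx K (true, i2) * xx K (false, i3) * xx K (true, i0) := by ring
        rw [h2]; exact h1
      · have h1 := four (K := K) (d := (false, i1)) e23 e30 e12 hu.symm (v := v) (by
          rcases hdom v with h | h | h | h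
          · right; right; left; exact h
          · right; right; right; exact h
          · left; exact h
          · right; left; exact h)
        have h2 : xx K (true, i0) * xx K (false, i1) * xx K (true, i2) * xx K (false, i3) =
          xx K (true, i2) * xx K (false, i3) * xx K (true, i0) * xx K (false, i1) := by ring
        rw [h2]; exact h1
      · have h1 := four (K := K) (d := (true, i2)) e30 e01 e23 hu.symm (v := v) (by
          rcases hdom v with h | h | h | h
          · right; left; exact h
          · right; right; left; exact h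
          · right; right; right; exact h
          · left; exact h)
        have h2 : xx K (true, i0) * xx K (false, i1) * xx K (true, i2) * xx K (false, i3) =
          xx K (false, i3) * xx K (true, i0) * xx K (false, i1) * xx K (true, i2) := by ring
        rw [h2]; exact h1

/-- witness for `T1 b` -/
lemma wit1 (hn : 4 ≤ n) (b : Bool) : ∃ h : MvPolynomial ((Bool × Fin n) × Bool) K,
    h.IsHomogeneous 4 ∧ th K (T1 b) l1 h ≠ 0 ∧
      ∀ g, g ∈ primeT K (crown n) (T1 b) ↔ g * h ∈ bei K (crown n) := by
  have i0 : Fin n := ⟨0, by omega⟩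
  obtain ⟨i1, h10, -, -⟩ := exists_ne3 hn i0 i0 i0
  obtain ⟨i2, h20, h21, -⟩ := exists_ne3 hn i0 i1 i1
  obtain ⟨i3, h30, h31, h32⟩ := exists_ne3 hn i0 i1 i2
  have hout : ∀ j : Fin n, ((!b), j) ∉ T1 (n := n) b := fun j h => bnot_ne b h
  have hne : th K (T1 b) l1 (br K (!b, i0) (!b, i1) * br K (!b, i2) (!b, i3)) ≠ 0 := by
    rw [map_mul]
    refine mul_ne_zero (th_br_ne (hout _) (hout _) ?_) (th_br_ne (hout _) (hout _) ?_)
    · intro h; exact h10 (congrArg Prod.snd h).symm
    · intro h; exact h32 (congrArg Prod.snd h).symm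
  refine ⟨br K (!b, i0) (!b, i1) * br K (!b, i2) (!b, i3), ?_, hne, ?_⟩
  · exact (br_hom _ _).mul (br_hom _ _)
  · apply witness (hG1 b) (hc1 b) hne
    · rintro ⟨c, j⟩ hv d
      have hc : c = b := hv
      subst hc
      by_cases h : j = i0 ∨ j = i1
      · have h1 : X ((c, j), d) * (br K (!c, i0) (!c, i1) * br K (!c, i2) (!c, i3)) =
            br K (!c, i0) (!c, i1) * (X ((c, j), d) * br K (!c, i2) (!c, i3)) := by ring
        rw [h1]
        apply Ideal.mul_mem_left
        apply path1
        · apply adj_mk'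
          rcases h with rfl | rfl
          · exact h20
          · exact h21
        · apply adj_mk
          rcases h with rfl | rfl
          · exact h30.symm
          · exact h31.symm
      · push Not at h
        rw [← mul_assoc]
        apply Ideal.mul_mem_right
        apply path1
        · exact adj_mk' h.1.symm
        · exact adj_mk h.2
    · intro u v _ _ huv
      have : u = v := huv
      subst this
      rw [br_self, zero_mul]
      exact Ideal.zero_mem _

/-- witness for `T2 b i` -/
lemma wit2 (hn : 4 ≤ n) (b : Bool) (i : Fin n) :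
    ∃ h : MvPolynomial ((Bool × Fin n) × Bool) K,
    h.IsHomogeneous 4 ∧ th K (T2 b i) (l2 b i) h ≠ 0 ∧
      ∀ g, g ∈ primeT K (crown n) (T2 b i) ↔ g * h ∈ bei K (crown n) := by
  obtain ⟨k, hki, -, -⟩ := exists_ne3 hn i i i
  obtain ⟨l, hli, hlk, -⟩ := exists_ne3 hn i k k
  have hout : ∀ j : Fin n, ((!b), j) ∉ T2 (n := n) b i := fun j h => bnot_ne b h.1
  have hbi : (b, i) ∉ T2 (n := n) b i := fun h => h.2 rfl
  have hl2 : ∀ j : Fin n, j ≠ i → l2 b i (!b, j) = (b, i) := by
    intro j hj
    unfold l2
    rw [if_neg]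
    intro h; exact hj (congrArg Prod.snd h)
  have hl2' : l2 b i (!b, i) = (!b, i) := if_pos rfl
  have hne : th K (T2 b i) (l2 b i) (xx K (b, i) * xx K (!b, k) * br K (!b, i) (!b, l)) ≠ 0 := by
    rw [map_mul, map_mul]
    refine mul_ne_zero (mul_ne_zero (th_X_ne _ hbi) (th_X_ne _ (hout _)))
      (th_br_ne (hout _) (hout _) ?_)
    rw [hl2 l hli, hl2']
    intro h
    exact bnot_ne b (congrArg Prod.fst h)
  refine ⟨xx K (b, i) * xx K (!b, k) * br K (!b, i) (!b, l), ?_, hne, ?_⟩
  · exact ((xx_hom _).mul (xx_hom _)).mul (br_hom _ _)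
  · apply witness (hG2 b i) (hc2 b i) hne
    · rintro ⟨c, j⟩ hv d
      have hc : c = b := hv.1
      have hj : j ≠ i := hv.2
      subst hc
      by_cases h : j = l
      · subst h
        have h1 : X ((c, j), d) * (xx K (c, i) * xx K (!c, k) * br K (!c, i) (!c, j)) =
            X ((c, i), false) * X ((!c, k), false) * X ((c, j), d) *
              br K (!c, i) (!c, j) := by unfold xx; ring
        rw [h1]
        exact path3 (adj_mk' hj.symm) (adj_mk hlk) (adj_mk' hki) (adj_mk hj.symm) d false false
      · have h1 : X ((c, j), d) * (xx K (c, i) * xx K (!c, k) * br K (!c, i) (!c, l)) =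
            (xx K (c, i) * xx K (!c, k)) * (X ((c, j), d) * br K (!c, i) (!c, l)) := by ring
        rw [h1]
        apply Ideal.mul_mem_left
        exact path1 (adj_mk' hj.symm) (adj_mk h) d
    · rintro ⟨c, j⟩ ⟨c', j'⟩ hu hv huv
      by_cases hc : c = b
      · have hj : j = i := by
          by_contra hj; exact hu ⟨hc, hj⟩
        subst hc; subst hj
        have hlu : l2 c j (c, j) = (c, j) := by
          unfold l2; rw [if_neg]
          intro h; exact ne_bnot c (congrArg Prod.fst h)
        by_cases hc' : c' = c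
        · have hj' : j' = j := by
            by_contra hj; exact hv ⟨hc', hj⟩
          subst hc'; subst hj'
          rw [br_self, zero_mul]
          exact Ideal.zero_mem _
        · have hc'' := eq_bnot hc'
          subst hc''
          apply Ideal.mul_mem_right
          apply br_mem
          apply adj_mk
          rintro rfl
          rw [hlu, hl2'] at huv
          exact ne_bnot c (congrArg Prod.fst huv)
      · have hc2 := eq_bnot hc
        subst hc2
        by_cases hj : j = i
        · subst hj
          rw [hl2'] at huv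
          have : (c', j') = (!b, j) := by
            by_contra hne'
            unfold l2 at huv
            rw [if_neg hne'] at huv
            exact bnot_ne b (congrArg Prod.fst huv)
          rw [this, br_self, zero_mul]
          exact Ideal.zero_mem _
        · rw [hl2 j hj] at huv
          by_cases hc' : c' = b
          · have hj' : j' = i := by
              by_contra hj; exact hv ⟨hc', hj⟩
            subst hc'; subst hj'
            apply Ideal.mul_mem_right
            apply br_mem
            exact adj_mk' hj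
          · have hc'' := eq_bnot hc'
            subst hc''
            have hj' : j' ≠ i := by
              rintro rfl
              rw [hl2'] at huv
              exact ne_bnot b (congrArg Prod.fst huv)
            have h1 : br K (!b, j) (!b, j') * (xx K (b, i) * xx K (!b, k) * br K (!b, i) (!b, l))
              = (xx K (!b, k) * br K (!b, i) (!b, l)) *
                (X ((b, i), false) * br K (!b, j) (!b, j')) := by
              unfold xx; ring
            rw [h1]
            apply Ideal.mul_mem_left
            exact path1 (adj_mk' hj) (adj_mk hj'.symm) false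

/-- witness for `T3 i l` -/
lemma wit3 (i l : Fin n) (hil : i ≠ l) :
    ∃ h : MvPolynomial ((Bool × Fin n) × Bool) K,
    h.IsHomogeneous 4 ∧ th K (T3 i l) (l3 i) h ≠ 0 ∧
      ∀ g, g ∈ primeT K (crown n) (T3 i l) ↔ g * h ∈ bei K (crown n) := by
  have houti : ∀ c : Bool, (c, i) ∉ T3 (n := n) i l := fun c h => h.1 rfl
  have houtl : ∀ c : Bool, (c, l) ∉ T3 (n := n) i l := fun c h => h.2 rfl
  have hli : ∀ c : Bool, l3 i (c, i) = (c, i) := by
    intro c; unfold l3; rw [if_pos rfl]
  have hll : ∀ c : Bool, l3 i (c, l) = (!c, i) := by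
    intro c; unfold l3; rw [if_neg hil.symm]
  have hne : th K (T3 i l) (l3 i) (br K (true, i) (false, i) * br K (true, l) (false, l)) ≠ 0 := by
    rw [map_mul]
    refine mul_ne_zero (th_br_ne (houti _) (houti _) ?_) (th_br_ne (houtl _) (houtl _) ?_)
    · rw [hli, hli]; intro h; simpa using congrArg Prod.fst h
    · rw [hll, hll]; intro h; simpa using congrArg Prod.fst h
  refine ⟨br K (true, i) (false, i) * br K (true, l) (false, l), ?_, hne, ?_⟩
  · exact (br_hom _ _).mul (br_hom _ _)
  · apply witness (hG3 i l) (hc3 i l hil) hne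
    · rintro ⟨c, j⟩ hv d
      have hji : j ≠ i := hv.1
      have hjl : j ≠ l := hv.2
      have h1 : X ((c, j), d) * (br K (true, i) (false, i) * br K (true, l) (false, l)) =
          (X ((c, j), d) * br K (true, i) (true, l)) * br K (false, i) (false, l) +
          (X ((c, j), d) * br K (false, i) (true, l)) * (-1) * br K (true, i) (false, l) := by
        unfold br xx yy; ring
      rw [h1]
      apply Ideal.add_mem
      · cases c
        · apply Ideal.mul_mem_right
          exact path1 (adj_mk0 (by simp) hji.symm) (adj_mk0 (by simp) hjl) d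
        · have h2 : X ((true, j), d) * br K (true, i) (true, l) * br K (false, i) (false, l) =
            br K (true, i) (true, l) * (X ((true, j), d) * br K (false, i) (false, l)) := by ring
          rw [h2]
          apply Ideal.mul_mem_left
          exact path1 (adj_mk0 (by simp) hji.symm) (adj_mk0 (by simp) hjl) d
      · apply Ideal.mul_mem_left
        apply br_mem
        exact ⟨by simp, hil⟩
    · rintro ⟨c, j⟩ ⟨c', j'⟩ hu hv huv
      have hu' : j = i ∨ j = l := by
        by_contra hk; push Not at hk; exact hu hk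
      have hv' : j' = i ∨ j' = l := by
        by_contra hk; push Not at hk; exact hv hk
      apply Ideal.mul_mem_right
      rcases hu' with rfl | rfl <;> rcases hv' with rfl | rfl
      · rw [hli, hli] at huv
        rw [huv, br_self]; exact Ideal.zero_mem _
      · rw [hli, hll] at huv
        apply br_mem
        refine ⟨?_, hil⟩
        have := congrArg Prod.fst huv
        show c ≠ c'
        rw [show c = !c' from this]; exact bnot_ne _
      · rw [hli, hll] at huv
        apply br_mem
        refine ⟨?_, hil.symm⟩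
        have := congrArg Prod.fst huv
        show c ≠ c'
        rw [show c' = !c from this.symm]; exact ne_bnot _
      · rw [hll, hll] at huv
        have h3 : (!c) = !c' := congrArg Prod.fst huv
        have h4 : c = c' := by revert h3; cases c <;> cases c' <;> simp
        rw [h4, br_self]; exact Ideal.zero_mem _

end witnesses

/-! ### The lower bounds -/

section lower

variable {K : Type} [Field K] {n : ℕ}

lemma l2_eq_iff (b : Bool) (i : Fin n) (u v : Bool × Fin n) :
    l2 b i u = l2 b i v ↔ (u = (!b, i) ↔ v = (!b, i)) := by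
  unfold l2
  by_cases hu : u = (!b, i)
  · by_cases hv : v = (!b, i)
    · simp [hu, hv]
    · rw [if_pos hu, if_neg hv]
      constructor
      · intro h
        rw [hu] at h
        exact absurd (congrArg Prod.fst h) (bnot_ne b)
      · intro h; exact absurd (h.mp hu) hv
  · by_cases hv : v = (!b, i)
    · rw [if_neg hu, if_pos hv]
      constructor
      · intro h
        rw [hv] at h
        exact absurd (congrArg Prod.fst h) (ne_bnot b)
      · intro h; exact absurd (h.mpr hv) hu
    · simp [hu, hv]

lemma l3_iff1 (c : Bool) {i l : Fin n} (hil : i ≠ l) {u v : Bool × Fin n}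
    (hu : u = (c, i) ∨ u = (!c, i) ∨ u = (!c, l)) (hv : v = (c, i) ∨ v = (!c, i) ∨ v = (!c, l)) :
    l3 i u = l3 i v ↔ (u = (!c, i) ↔ v = (!c, i)) := by
  have key : ∀ u : Bool × Fin n, (u = (c, i) ∨ u = (!c, i) ∨ u = (!c, l)) →
      l3 i u = (if u = (!c, i) then !c else c, i) := by
    rintro u (rfl | rfl | rfl)
    · unfold l3
      rw [if_pos rfl, if_neg (fun h => ne_bnot c (congrArg Prod.fst h))]
    · unfold l3
      rw [if_pos rfl, if_pos rfl]
    · unfold l3
      rw [if_neg hil.symm, if_neg (fun h => hil (congrArg Prod.snd h).symm), Bool.not_not]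
  rw [key u hu, key v hv, Prod.mk.injEq]
  have h1 := ne_bnot c
  have h2 := bnot_ne c
  by_cases h3 : u = (!c, i) <;> by_cases h4 : v = (!c, i) <;> simp [h3, h4]

lemma l3_iff2 (c : Bool) {i l : Fin n} (hil : i ≠ l) {u v : Bool × Fin n}
    (hu : u = (c, l) ∨ u = (!c, i) ∨ u = (!c, l)) (hv : v = (c, l) ∨ v = (!c, i) ∨ v = (!c, l)) :
    l3 i u = l3 i v ↔ (u = (!c, l) ↔ v = (!c, l)) := by
  have key : ∀ u : Bool × Fin n, (u = (c, l) ∨ u = (!c, i) ∨ u = (!c, l)) →
      l3 i u = (if u = (!c, l) then c else !c, i) := by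
    rintro u (rfl | rfl | rfl)
    · unfold l3
      rw [if_neg hil.symm, if_neg (fun h => ne_bnot c (congrArg Prod.fst h))]
    · unfold l3
      rw [if_pos rfl, if_neg (fun h => hil (congrArg Prod.snd h))]
    · unfold l3
      rw [if_neg hil.symm, if_pos rfl, Bool.not_not]
  rw [key u hu, key v hv, Prod.mk.injEq]
  by_cases h3 : u = (!c, l) <;> by_cases h4 : v = (!c, l) <;> simp [h3, h4]

lemma sum_le {α : (Bool × Fin n) →₀ ℕ} (h3 : ∑ v, α v ≤ 3) (s : Finset (Bool × Fin n)) :
    ∑ v ∈ s, α v ≤ 3 :=
  le_trans (Finset.sum_le_sum_of_subset (Finset.subset_univ s)) h3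

/-- two-element argument on a side -/
lemma two_or {α : (Bool × Fin n) →₀ ℕ} (c : Bool) (j0 : Fin n)
    (h : ¬ ∃ j, ∀ k, α (c, k) ≠ 0 → k = j) :
    ∃ j k, j ≠ k ∧ α (c, j) ≠ 0 ∧ α (c, k) ≠ 0 := by
  push Not at h
  obtain ⟨j, hj, -⟩ := h j0
  obtain ⟨k, hk, hkj⟩ := h j
  exact ⟨j, k, hkj.symm, hj, hk⟩

lemma X_mem_primeT {G : SimpleGraph (Bool × Fin n)} {T : Set (Bool × Fin n)} {v : Bool × Fin n}
    (h : v ∈ T) : (X (v, false) : MvPolynomial ((Bool × Fin n) × Bool) K) ∈ primeT K G T :=
  Ideal.subset_span (Or.inl ⟨v, h, Or.inl rfl⟩)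

lemma br_mem_primeT {G : SimpleGraph (Bool × Fin n)} {T : Set (Bool × Fin n)}
    {u v : Bool × Fin n} (h : SameComp G T u v) : br K u v ∈ primeT K G T :=
  Ideal.subset_span (Or.inr ⟨u, v, h, rfl⟩)

lemma low0 (hn : 4 ≤ n) {f : MvPolynomial ((Bool × Fin n) × Bool) K} {e : ℕ}
    (he : f.IsHomogeneous e) (he3 : e ≤ 3)
    (hf : ∀ g, g ∈ primeT K (crown n) ∅ ↔ g * f ∈ bei K (crown n)) : False := by
  have i0 : Fin n := ⟨0, by omega⟩
  obtain ⟨h, -, hne, hw⟩ := wit0 (K := K) hn (true, i0)
  obtain ⟨α, g, hg, hsupp, h3, hT, hvan⟩ :=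
    extract (hG0 (true, i0)) (hc0 hn (true, i0)) hne hw hf he he3
  have key : ∃ (b : Bool) (i : Fin n), ∀ k, α (b, k) ≠ 0 → k = i := by
    by_contra hcon
    push Not at hcon
    obtain ⟨j1, j2, hj, hj1, hj2⟩ := two_or (α := α) true i0 (by push Not; exact hcon true)
    obtain ⟨k1, k2, hk, hk1, hk2⟩ := two_or (α := α) false i0 (by push Not; exact hcon false)
    have h4 := sum_le h3 {(true, j1), (true, j2), (false, k1), (false, k2)}
    rw [Finset.sum_insert (by simp [hj]), Finset.sum_insert (by simp), Finset.sum_insert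
      (by simp [hk]), Finset.sum_singleton] at h4
    omega
  obtain ⟨b, i, hbi⟩ := key
  have hz : th K (T2 b i) (l2 b i) g = 0 := by
    apply hvan _ _ (hG2 b i)
    obtain ⟨l, hli, -, -⟩ := exists_ne3 hn i i i
    refine ⟨br K (!b, i) (!b, l), br_mem_primeT (hc0 hn (true, i0) _ _ (Set.notMem_empty _)
      (Set.notMem_empty _) rfl), ?_⟩
    apply th_br_ne (fun h => bnot_ne b h.1) (fun h => bnot_ne b h.1)
    rw [Ne, l2_eq_iff]
    intro h
    exact hli (congrArg Prod.snd (h.mp rfl))
  apply refine_lemma hsupp hg hz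
  · rintro ⟨c, k⟩ hv hvT
    have hc : c = b := hvT.1
    subst hc
    exact hvT.2 (hbi k hv)
  · intro _ _ _ _ _ _ _; rfl

lemma low1 (hn : 4 ≤ n) (b : Bool) {f : MvPolynomial ((Bool × Fin n) × Bool) K} {e : ℕ}
    (he : f.IsHomogeneous e) (he3 : e ≤ 3)
    (hf : ∀ g, g ∈ primeT K (crown n) (T1 b) ↔ g * f ∈ bei K (crown n)) : False := by
  classical
  have i0 : Fin n := ⟨0, by omega⟩
  obtain ⟨h, -, hne, hw⟩ := wit1 (K := K) hn b
  obtain ⟨α, g, hg, hsupp, h3, hT, hvan⟩ :=
    extract (hG1 b) (hc1 b) hne hw hf he he3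
  have hside : ∀ v, α v ≠ 0 → v.1 = !b := fun v hv => eq_bnot (hT v hv)
  by_cases hA : ∃ j, ∀ k, α (!b, k) ≠ 0 → k = j
  · obtain ⟨j, hj⟩ := hA
    have hv' : ∀ v, α v ≠ 0 → v = (!b, j) := by
      rintro ⟨c, k⟩ hv
      have hc : c = !b := hside _ hv
      subst hc
      rw [hj k hv]
    have hz : th K (T2 (!b) j) (l2 (!b) j) g = 0 := by
      apply hvan _ _ (hG2 (!b) j)
      refine ⟨X ((b, j), false), X_mem_primeT (v := (b, j)) rfl, ?_⟩
      exact th_X_ne _ (fun h => ne_bnot b h.1)
    apply refine_lemma hsupp hg hz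
    · intro v hv hvT
      rw [hv' v hv] at hvT
      exact hvT.2 rfl
    · intro u v hu hv _ _ _
      rw [hv' u hu, hv' v hv]
  obtain ⟨j, k, hjk, hj, hk⟩ := two_or (α := α) (!b) i0 hA
  by_cases hB : ∀ l, α (!b, l) ≠ 0 → l = j ∨ l = k
  · have hv' : ∀ v, α v ≠ 0 → v = (!b, j) ∨ v = (!b, k) := by
      rintro ⟨c, l⟩ hv
      have hc : c = !b := hside _ hv
      subst hc
      rcases hB l hv with rfl | rfl
      · left; rfl
      · right; rfl
    have hz : th K (T3 j k) (l3 j) g = 0 := by
      apply hvan _ _ (hG3 j k)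
      refine ⟨X ((b, j), false), X_mem_primeT (v := (b, j)) rfl, ?_⟩
      exact th_X_ne _ (fun h => h.1 rfl)
    apply refine_lemma hsupp hg hz
    · intro v hv hvT
      rcases hv' v hv with rfl | rfl
      · exact hvT.1 rfl
      · exact hvT.2 rfl
    · intro u v hu hv _ _ huv
      unfold l3 at huv
      rcases hv' u hu with rfl | rfl <;> rcases hv' v hv with rfl | rfl
      · rfl
      · simp [hjk.symm] at huv
      · simp [hjk.symm] at huv
      · rfl
  push Not at hB
  obtain ⟨l, hl, hlj, hlk⟩ := hB
  have h4 := sum_le h3 {(!b, j), (!b, k), (!b, l)}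
  rw [Finset.sum_insert (by simp [hjk, hlj.symm]), Finset.sum_insert (by simp [hlk.symm]),
    Finset.sum_singleton] at h4
  have hv' : ∀ v, α v ≠ 0 → v = (!b, j) ∨ v = (!b, k) ∨ v = (!b, l) := by
    intro v hv
    by_contra hcon
    push Not at hcon
    have h5 := sum_le h3 {v, (!b, j), (!b, k), (!b, l)}
    rw [Finset.sum_insert (by simp [hcon.1, hcon.2.1, hcon.2.2]),
      Finset.sum_insert (by simp [hjk, hlj.symm]), Finset.sum_insert (by simp [hlk.symm]),
      Finset.sum_singleton] at h5
    omega
  have hone : ∀ v, α v ≤ 1 := by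
    intro v
    by_cases hv : α v = 0
    · omega
    · rcases hv' v hv with rfl | rfl | rfl <;> omega
  -- vanishing of the evaluations
  have hev : ∀ (a c d : Fin n), a ≠ c → a ≠ d →
      (∀ v, α v ≠ 0 → v = (!b, a) ∨ v = (!b, c) ∨ v = (!b, d)) →
      ∀ ε : Bool × Fin n → Bool, ε (!b, c) = ε (!b, d) → ev K ε g = 0 := by
    intro a c d hac had hv'' ε hε
    have hz : th K (T2 b a) (l2 b a) g = 0 := by
      apply hvan _ _ (hG2 b a)
      refine ⟨X ((b, a), false), X_mem_primeT (v := (b, a)) rfl, ?_⟩
      exact th_X_ne _ (fun h => h.2 rfl)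
    apply ev_zero hsupp hz
    · intro v hv hvT
      have := hside v hv
      rw [hvT.1] at this
      exact ne_bnot b this
    · intro u v hu hv huv
      rw [l2_eq_iff] at huv
      rcases hv'' u hu with rfl | rfl | rfl <;> rcases hv'' v hv with rfl | rfl | rfl
      · rfl
      · exact absurd (congrArg Prod.snd (huv.mp rfl)).symm hac
      · exact absurd (congrArg Prod.snd (huv.mp rfl)).symm had
      · exact absurd (congrArg Prod.snd (huv.mpr rfl)).symm hac
      · rfl
      · exact hε
      · exact absurd (congrArg Prod.snd (huv.mpr rfl)).symm had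
      · exact hε.symm
      · rfl
  have hall : ∀ ε : Bool × Fin n → Bool, ev K ε g = 0 := by
    intro ε
    by_cases h1 : ε (!b, k) = ε (!b, l)
    · exact hev j k l hjk hlj.symm hv' ε h1
    · by_cases h2 : ε (!b, j) = ε (!b, l)
      · exact hev k j l hjk.symm hlk.symm (fun v hv => by
          rcases hv' v hv with h | h | h
          · right; left; exact h
          · left; exact h
          · right; right; exact h) ε h2
      · have h5 : ε (!b, j) = ε (!b, k) := by
          revert h1 h2
          cases ε (!b, j) <;> cases ε (!b, k) <;> cases ε (!b, l) <;> simp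
        exact hev l j k hlj hlk (fun v hv => by
          rcases hv' v hv with h | h | h
          · right; left; exact h
          · right; right; exact h
          · left; exact h) ε h5
  apply hg
  have hg0 : g = 0 := by
    by_contra hg0
    obtain ⟨m, hm⟩ := MvPolynomial.support_nonempty.mpr hg0
    have h5 := coeff_eq_ev hsupp hm (fun v => decide (m (v, true) ≠ 0)) (by
      rintro ⟨v, d⟩ hmd
      have h6 := md_apply m v
      rw [hsupp m hm] at h6
      have h7 := hone v
      cases d
      · have : m (v, true) = 0 := by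
          have : m (v, false) ≠ 0 := hmd
          omega
        simp [this]
      · have : m (v, true) ≠ 0 := hmd
        simp [this])
    rw [hall] at h5
    exact MvPolynomial.mem_support_iff.mp hm h5.symm
  rw [hg0, map_zero]

lemma low2 (hn : 4 ≤ n) (b : Bool) (i : Fin n)
    {f : MvPolynomial ((Bool × Fin n) × Bool) K} {e : ℕ}
    (he : f.IsHomogeneous e) (he3 : e ≤ 3)
    (hf : ∀ g, g ∈ primeT K (crown n) (T2 b i) ↔ g * f ∈ bei K (crown n)) : False := by
  classical
  obtain ⟨j0, hj0, -, -⟩ := exists_ne3 hn i i i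
  obtain ⟨k0, hk0, hk0j, -⟩ := exists_ne3 hn i j0 j0
  obtain ⟨h, -, hne, hw⟩ := wit2 (K := K) hn b i
  obtain ⟨α, g, hg, hsupp, h3, hT, hvan⟩ :=
    extract (hG2 b i) (hc2 b i) hne hw hf he he3
  have hside : ∀ k, α (b, k) ≠ 0 → k = i := by
    intro k hk
    by_contra hki
    exact hT _ hk ⟨rfl, hki⟩
  have hX : ∀ j, j ≠ i → (X ((b, j), false) : MvPolynomial ((Bool × Fin n) × Bool) K) ∈
      primeT K (crown n) (T2 b i) := fun j hj => X_mem_primeT (v := (b, j)) ⟨rfl, hj⟩
  have hcases : ∀ v, α v ≠ 0 → v = (b, i) ∨ v.1 = !b := by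
    rintro ⟨c, k⟩ hv
    by_cases hc : c = b
    · subst hc
      left; rw [hside k hv]
    · right; exact eq_bnot hc
  by_cases hbi : α (b, i) = 0
  · have hz : th K (T1 b) l1 g = 0 := by
      apply hvan _ _ (hG1 b)
      refine ⟨br K (!b, j0) (!b, k0), br_mem_primeT (hc2 b i _ _ (fun h => bnot_ne b h.1)
        (fun h => bnot_ne b h.1) ?_), ?_⟩
      · rw [l2_eq_iff]
        constructor
        · intro h; exact absurd (congrArg Prod.snd h) hj0
        · intro h; exact absurd (congrArg Prod.snd h) hk0
      · have hout : ∀ j : Fin n, ((!b), j) ∉ T1 (n := n) b := fun j h => bnot_ne b h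
        apply th_br_ne (hout _) (hout _)
        intro h
        exact hk0j (congrArg Prod.snd h).symm
    apply refine_lemma hsupp hg hz
    · intro v hv hvT
      rcases hcases v hv with rfl | h
      · exact hv hbi
      · rw [show v.1 = b from hvT] at h
        exact ne_bnot b h
    · intro u v _ _ _ _ huv
      have : u = v := huv
      rw [this]
  by_cases hai : α (!b, i) = 0
  · -- the support is in the big component
    have hz : th K ∅ (fun _ => (b, i)) g = 0 := by
      apply hvan _ _ (hG0 (b, i))
      exact ⟨X ((b, j0), false), hX j0 hj0, th_X_ne _ (Set.notMem_empty _)⟩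
    apply refine_lemma hsupp hg hz
    · intro v _; exact Set.notMem_empty _
    · intro u v hu hv _ _ _
      rw [l2_eq_iff]
      constructor
      · rintro rfl; exact absurd hai hu
      · rintro rfl; exact absurd hai hv
  by_cases hone : ∀ v, α v ≠ 0 → v = (b, i) ∨ v = (!b, i)
  · have hz : th K (T2 (!b) i) (l2 (!b) i) g = 0 := by
      apply hvan _ _ (hG2 (!b) i)
      exact ⟨X ((b, j0), false), hX j0 hj0, th_X_ne _ (fun h => ne_bnot b h.1)⟩
    apply refine_lemma hsupp hg hz
    · intro v hv hvT
      rcases hone v hv with rfl | rfl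
      · exact hvT.2 rfl
      · exact hvT.2 rfl
    · intro u v hu hv _ _ huv
      rw [l2_eq_iff, Bool.not_not] at huv
      rcases hone u hu with rfl | rfl <;> rcases hone v hv with rfl | rfl
      · rfl
      · exact absurd (congrArg Prod.fst (huv.mp rfl)) (bnot_ne b)
      · exact absurd (congrArg Prod.fst (huv.mpr rfl)) (bnot_ne b)
      · rfl
  push Not at hone
  obtain ⟨⟨c, l⟩, hv, hvb, hva⟩ := hone
  have hc : c = !b := by
    rcases hcases _ hv with h | h
    · exact absurd h hvb
    · exact h
  subst hc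
  have hli : l ≠ i := by
    rintro rfl; exact hva rfl
  have hone : ∀ v, α v ≠ 0 → v = (b, i) ∨ v = (!b, i) ∨ v = (!b, l) := by
    intro v hv1
    by_contra hcon
    push Not at hcon
    have h5 := sum_le h3 {v, (b, i), (!b, i), (!b, l)}
    rw [Finset.sum_insert (by simp [hcon.1, hcon.2.1, hcon.2.2]),
      Finset.sum_insert (by simp), Finset.sum_insert (by simp [hli.symm]),
      Finset.sum_singleton] at h5
    omega
  have hz : th K (T3 i l) (l3 i) g = 0 := by
    apply hvan _ _ (hG3 i l)
    exact ⟨X ((b, l), false), hX l hli, th_X_ne _ (fun h => h.2 rfl)⟩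
  apply refine_lemma hsupp hg hz
  · intro v hv hvT
    rcases hone v hv with rfl | rfl | rfl
    · exact hvT.1 rfl
    · exact hvT.1 rfl
    · exact hvT.2 rfl
  · intro u v hu hv _ _ huv
    rw [l2_eq_iff, ← l3_iff1 b hli.symm (hone u hu) (hone v hv)]
    exact huv

lemma low3 (hn : 4 ≤ n) (i l : Fin n) (hil : i ≠ l)
    {f : MvPolynomial ((Bool × Fin n) × Bool) K} {e : ℕ}
    (he : f.IsHomogeneous e) (he3 : e ≤ 3)
    (hf : ∀ g, g ∈ primeT K (crown n) (T3 i l) ↔ g * f ∈ bei K (crown n)) : False := by
  classical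
  obtain ⟨j0, hj0, hj0l, -⟩ := exists_ne3 hn i l l
  obtain ⟨h, -, hne, hw⟩ := wit3 (K := K) i l hil
  obtain ⟨α, g, hg, hsupp, h3, hT, hvan⟩ :=
    extract (hG3 i l) (hc3 i l hil) hne hw hf he he3
  have hcases : ∀ v, α v ≠ 0 → v.2 = i ∨ v.2 = l := by
    intro v hv
    by_contra hcon
    push Not at hcon
    exact hT v hv hcon
  have hX : ∀ c, (X ((c, j0), false) : MvPolynomial ((Bool × Fin n) × Bool) K) ∈
      primeT K (crown n) (T3 i l) := fun c => X_mem_primeT (v := (c, j0)) ⟨hj0, hj0l⟩
  have hmiss : ∃ c, α (c, i) = 0 ∨ α (c, l) = 0 := by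
    by_contra hcon
    push Not at hcon
    have h5 := sum_le h3 {(true, i), (false, i), (true, l), (false, l)}
    rw [Finset.sum_insert (by simp [hil]), Finset.sum_insert (by simp [hil]),
      Finset.sum_insert (by simp), Finset.sum_singleton] at h5
    have h6 := hcon true
    have h7 := hcon false
    omega
  obtain ⟨c, hc | hc⟩ := hmiss
  · -- misses (c, i)
    have hz : th K (T2 c l) (l2 c l) g = 0 := by
      apply hvan _ _ (hG2 c l)
      exact ⟨X ((!c, j0), false), hX _, th_X_ne _ (fun h => bnot_ne c h.1)⟩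
    apply refine_lemma hsupp hg hz
    · rintro ⟨d, k⟩ hv hvT
      have hd : d = c := hvT.1
      subst hd
      rcases hcases _ hv with h | h
      · have h' : k = i := h
        subst h'; exact hv hc
      · exact hvT.2 h
    · have hone : ∀ v, α v ≠ 0 → v = (c, l) ∨ v = (!c, i) ∨ v = (!c, l) := by
        rintro ⟨d, k⟩ hv
        have h1 : k = i ∨ k = l := hcases _ hv
        by_cases hd : d = c
        · subst hd
          rcases h1 with rfl | rfl
          · exact absurd hc hv
          · left; rfl
        · have hd' := eq_bnot hd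
          subst hd'
          rcases h1 with rfl | rfl
          · right; left; rfl
          · right; right; rfl
      intro u v hu hv _ _ huv
      rw [l2_eq_iff] at huv
      rw [l3_iff2 c hil (hone u hu) (hone v hv)]
      exact huv
  · -- misses (c, l)
    have hz : th K (T2 c i) (l2 c i) g = 0 := by
      apply hvan _ _ (hG2 c i)
      exact ⟨X ((!c, j0), false), hX _, th_X_ne _ (fun h => bnot_ne c h.1)⟩
    apply refine_lemma hsupp hg hz
    · rintro ⟨d, k⟩ hv hvT
      have hd : d = c := hvT.1
      subst hd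
      rcases hcases _ hv with h | h
      · exact hvT.2 h
      · have h' : k = l := h
        subst h'; exact hv hc
    · have hone : ∀ v, α v ≠ 0 → v = (c, i) ∨ v = (!c, i) ∨ v = (!c, l) := by
        rintro ⟨d, k⟩ hv
        have h1 : k = i ∨ k = l := hcases _ hv
        by_cases hd : d = c
        · subst hd
          rcases h1 with rfl | rfl
          · left; rfl
          · exact absurd hc hv
        · have hd' := eq_bnot hd
          subst hd'
          rcases h1 with rfl | rfl
          · right; left; rfl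
          · right; right; rfl
      intro u v hu hv _ _ huv
      rw [l2_eq_iff] at huv
      rw [l3_iff1 c hil (hone u hu) (hone v hv)]
      exact huv

end lower

/-! ### The cut sets of the crown graph -/

section cut

lemma two_comps {V : Type} [Finite V] {G : SimpleGraph V} {T : Set V} {v : V} (hv : v ∈ T)
    (h : ncomp G (T \ {v}) < ncomp G T) :
    ∃ u w, G.Adj v u ∧ G.Adj v w ∧ u ∉ T ∧ w ∉ T ∧ ¬ SameComp G T u w := by
  classical
  by_contra hcon
  push Not at hcon
  -- labels
  let ℓ : V → Set V := fun u =>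
    if u = v then {w | ∃ z, G.Adj v z ∧ z ∉ T ∧ SameComp G T z w} else {w | SameComp G T u w}
  have hℓv : ℓ v = {w | ∃ z, G.Adj v z ∧ z ∉ T ∧ SameComp G T z w} := if_pos rfl
  have hℓ : ∀ u, u ≠ v → ℓ u = {w | SameComp G T u w} := fun u hu => if_neg hu
  have hvadj : ∀ u, G.Adj v u → u ∉ T → ℓ v = ℓ u := by
    intro u hvu hu
    have huv : u ≠ v := fun h => hu (h ▸ hv)
    rw [hℓv, hℓ u huv]
    ext w
    constructor
    · rintro ⟨z, hz, hzT, hzw⟩
      exact (hcon u z hvu hz hu hzT).trans hzw
    · intro huw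
      exact ⟨u, hvu, hu, huw⟩
  have hcompat : ∀ u w, G.Adj u w → u ∉ T \ {v} → w ∉ T \ {v} → ℓ u = ℓ w := by
    intro u w huw hu hw
    by_cases hu' : u = v
    · subst hu'
      have hwu : w ≠ u := huw.ne'
      exact hvadj w huw (fun h => hw ⟨h, hwu⟩)
    · have huT : u ∉ T := fun h => hu ⟨h, hu'⟩
      by_cases hw' : w = v
      · subst hw'
        exact (hvadj u huw.symm huT).symm
      · have hwT : w ∉ T := fun h => hw ⟨h, hw'⟩
        rw [hℓ u hu', hℓ w hw']
        have h1 := sameComp_of_adj huT hwT huw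
        ext z
        exact ⟨fun h => h1.symm.trans h, fun h => h1.trans h⟩
  have hsub : ∀ u, u ∉ T → u ∉ T \ {v} := fun u hu h => hu h.1
  -- the map on components
  let φ : (G.induce Tᶜ) →g (G.induce (T \ {v})ᶜ) :=
    ⟨fun u => ⟨u.1, hsub u.1 u.2⟩, fun {a b} hab => hab⟩
  have hinj : Function.Injective (SimpleGraph.ConnectedComponent.map φ) := by
    intro a b
    refine SimpleGraph.ConnectedComponent.ind₂ ?_ a b
    rintro ⟨u, hu⟩ ⟨w, hw⟩ hab
    rw [SimpleGraph.ConnectedComponent.map_mk, SimpleGraph.ConnectedComponent.map_mk,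
      SimpleGraph.ConnectedComponent.eq] at hab
    rw [SimpleGraph.ConnectedComponent.eq]
    have hsc : SameComp G (T \ {v}) u w := ⟨hsub u hu, hsub w hw, hab⟩
    have h1 := label_of_sameComp hcompat hsc
    have huv : u ≠ v := fun h => hu (h ▸ hv)
    have hwv : w ≠ v := fun h => hw (h ▸ hv)
    rw [hℓ u huv, hℓ w hwv] at h1
    have h2 : w ∈ {z | SameComp G T u z} := by
      rw [h1]; exact SameComp.refl hw
    exact h2.2.2
  have : ncomp G T ≤ ncomp G (T \ {v}) := by
    unfold ncomp
    exact Nat.card_le_card_of_injective _ hinj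
  omega

variable {n : ℕ}

lemma cut_class (hn : 4 ≤ n) {T : Set (Bool × Fin n)} (hT : T ∈ cutSets (crown n)) :
    T = ∅ ∨ (∃ b, T = T1 b) ∨ (∃ b i, T = T2 b i) ∨ ∃ i l, i ≠ l ∧ T = T3 i l := by
  classical
  rcases hT with hT | hT
  · left; exact hT
  by_cases hTe : T = ∅
  · left; exact hTe
  right
  -- for every `(b, i)` in `T`
  have key : ∀ (b : Bool) (i : Fin n), (b, i) ∈ T → ∃ j k, j ≠ i ∧ k ≠ i ∧ j ≠ k ∧
      (!b, j) ∉ T ∧ (!b, k) ∉ T ∧ ¬ SameComp (crown n) T (!b, j) (!b, k) := by
    intro b i hi
    obtain ⟨⟨c, j⟩, ⟨d, k⟩, h1, h2, h3, h4, h5⟩ := two_comps hi (hT _ hi)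
    have hc : c = !b := eq_bnot (fun h => h1.1 h.symm)
    have hd : d = !b := eq_bnot (fun h => h2.1 h.symm)
    subst hc; subst hd
    refine ⟨j, k, fun h => h1.2 h.symm, fun h => h2.2 h.symm, ?_, h3, h4, h5⟩
    rintro rfl
    exact h5 (SameComp.refl h3)
  obtain ⟨⟨b, i⟩, hbi⟩ := Set.nonempty_iff_ne_empty.mpr hTe
  obtain ⟨j, k, hji, hki, hjk, hjT, hkT, hsep⟩ := key b i hbi
  have hout : ∀ m, (b, m) ∉ T → m = j ∨ m = k := by
    intro m hm
    by_contra hcon
    push Not at hcon
    apply hsep
    exact (sameComp_of_adj hjT hm (adj_mk' hcon.1.symm)).trans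
      (sameComp_of_adj hm hkT (adj_mk hcon.2))
  by_cases hA : ∀ m, (!b, m) ∉ T
  · -- the other side is outside `T`
    by_cases hj : (b, j) ∈ T
    · by_cases hk : (b, k) ∈ T
      · left
        refine ⟨b, ?_⟩
        ext ⟨c, m⟩
        constructor
        · intro h
          by_contra hcb
          have := eq_bnot hcb
          subst this
          exact hA m h
        · intro h
          have hcb : c = b := h
          subst hcb
          by_contra hm
          rcases hout m hm with rfl | rfl
          · exact hm hj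
          · exact hm hk
      · right; left
        refine ⟨b, k, ?_⟩
        ext ⟨c, m⟩
        constructor
        · intro h
          have hcb : c = b := by
            by_contra hcb
            have := eq_bnot hcb
            subst this
            exact hA m h
          subst hcb
          refine ⟨rfl, ?_⟩
          intro h'
          have h'' : m = k := h'
          subst h''
          exact hk h
        · rintro ⟨h1, h2⟩
          have hcb : c = b := h1
          subst hcb
          by_contra hm
          rcases hout m hm with rfl | rfl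
          · exact hm hj
          · exact h2 rfl
    · by_cases hk : (b, k) ∈ T
      · right; left
        refine ⟨b, j, ?_⟩
        ext ⟨c, m⟩
        constructor
        · intro h
          have hcb : c = b := by
            by_contra hcb
            have := eq_bnot hcb
            subst this
            exact hA m h
          subst hcb
          refine ⟨rfl, ?_⟩
          intro h'
          have h'' : m = j := h'
          subst h''
          exact hj h
        · rintro ⟨h1, h2⟩
          have hcb : c = b := h1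
          subst hcb
          by_contra hm
          rcases hout m hm with rfl | rfl
          · exact h2 rfl
          · exact hm hk
      · exfalso
        apply hsep
        obtain ⟨m, hmj, hmk, -⟩ := exists_ne3 hn j k k
        -- (!b, j) ~ (b, k) ~ (!b, m) ~ (b, j) ~ (!b, k)
        exact (((sameComp_of_adj hjT hk (adj_mk' hjk)).trans
          (sameComp_of_adj hk (hA m) (adj_mk hmk.symm))).trans
          (sameComp_of_adj (hA m) hj (adj_mk' hmj))).trans
          (sameComp_of_adj hj hkT (adj_mk hjk))
  · push Not at hA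
    obtain ⟨m, hm⟩ := hA
    obtain ⟨p, q, hpm, hqm, hpq, hpT, hqT, hsep'⟩ := key (!b) m hm
    rw [Bool.not_not] at hpT hqT hsep'
    have hjkT : (b, j) ∉ T ∧ (b, k) ∉ T ∧ m ≠ j ∧ m ≠ k ∧
        ¬ SameComp (crown n) T (b, j) (b, k) := by
      rcases hout p hpT with rfl | rfl <;> rcases hout q hqT with rfl | rfl
      · exact absurd rfl hpq
      · exact ⟨hpT, hqT, hpm.symm, hqm.symm, hsep'⟩
      · exact ⟨hqT, hpT, hqm.symm, hpm.symm, fun h => hsep' h.symm⟩
      · exact absurd rfl hpq
    obtain ⟨hbj, hbk, -, -, hsep2⟩ := hjkT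
    have hout2 : ∀ r, (!b, r) ∉ T → r = j ∨ r = k := by
      intro r hr
      by_contra hcon
      push Not at hcon
      apply hsep2
      exact (sameComp_of_adj hbj hr (adj_mk hcon.1.symm)).trans
        (sameComp_of_adj hr hbk (adj_mk' hcon.2))
    right; right
    refine ⟨j, k, hjk, ?_⟩
    ext ⟨c, r⟩
    constructor
    · intro h
      constructor
      · intro h'
        have h'' : r = j := h'
        subst h''
        by_cases hcb : c = b
        · subst hcb; exact hbj h
        · have := eq_bnot hcb
          subst this; exact hjT h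
      · intro h'
        have h'' : r = k := h'
        subst h''
        by_cases hcb : c = b
        · subst hcb; exact hbk h
        · have := eq_bnot hcb
          subst this; exact hkT h
    · rintro ⟨h1, h2⟩
      by_contra hcon
      by_cases hcb : c = b
      · subst hcb
        rcases hout r hcon with h | h
        · exact h1 h
        · exact h2 h
      · have := eq_bnot hcb
        subst this
        rcases hout2 r hcon with h | h
        · exact h1 h
        · exact h2 h

end cut

/-- **Main theorem.** For every field `K`, every `n ≥ 4` and every cut set `T` of the crown graph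
`C_{n,n}`, the local v-number of the binomial edge ideal `J_G` at `P_T(G)` is equal to `4`. -/
theorem result (K : Type) [Field K] (n : ℕ) (hn : 4 ≤ n) (T : Set (Bool × Fin n))
    (hT : T ∈ cutSets (crown n)) :
    IsLocalV K (bei K (crown n)) (primeT K (crown n) T) 4 := by
  have main : ∀ T : Set (Bool × Fin n),
      (∃ h : MvPolynomial ((Bool × Fin n) × Bool) K, h.IsHomogeneous 4 ∧
        ∀ g, g ∈ primeT K (crown n) T ↔ g * h ∈ bei K (crown n)) →
      (∀ (f : MvPolynomial ((Bool × Fin n) × Bool) K) (e : ℕ), f.IsHomogeneous e → e ≤ 3 →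
        (∀ g, g ∈ primeT K (crown n) T ↔ g * f ∈ bei K (crown n)) → False) →
      IsLocalV K (bei K (crown n)) (primeT K (crown n) T) 4 := by
    intro T h1 h2
    refine ⟨h1, ?_⟩
    rintro e ⟨f, hf, hfe⟩
    by_contra hcon
    push Not at hcon
    exact h2 f e hf (by omega) hfe
  have i0 : Fin n := ⟨0, by omega⟩
  rcases cut_class hn hT with rfl | ⟨b, rfl⟩ | ⟨b, i, rfl⟩ | ⟨i, l, hil, rfl⟩
  · obtain ⟨h, h1, -, h2⟩ := wit0 (K := K) hn (true, i0)
    exact main _ ⟨h, h1, h2⟩ (fun f e he he3 hf => low0 hn he he3 hf)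
  · obtain ⟨h, h1, -, h2⟩ := wit1 (K := K) hn b
    exact main _ ⟨h, h1, h2⟩ (fun f e he he3 hf => low1 hn b he he3 hf)
  · obtain ⟨h, h1, -, h2⟩ := wit2 (K := K) hn b i
    exact main _ ⟨h, h1, h2⟩ (fun f e he he3 hf => low2 hn b i he he3 hf)
  · obtain ⟨h, h1, -, h2⟩ := wit3 (K := K) i l hil
    exact main _ ⟨h, h1, h2⟩ (fun f e he he3 hf => low3 hn i l hil he he3 hf)

end Pool.Agent.Results.MP_354fda_al.CrownV
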